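import Mathlib
import Pool.Agent.Lib.MP_0016c7_nt.PC.Defs2
import Pool.Agent.Lib.MP_0016c7_nt.Rz.Nd1
import Pool.Agent.Lib.MP_0016c7_nt.Rz.Nc3

set_option autoImplicit false

/-!
Project PrimeConductors, block [C]: the certificate `JF_cert` with `E = 448 / 1000`.
Definitions and statements of the pieces. Owner: helper32.

Data: `δ = 1 / 10 ^ 9`, `V = 1 / 2 + δ`, `16` slices of length `39 / 2500` (`θ = 156 / 625`),
constant weight `w = 17 / 10`, `u₁`, `u₂` even polynomials of degree `4`, `y` of degree `2`,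
`κ = 7988 / 1000`, `t = 1657 / 750`, `lam = 93 / 1000`, `ν = 657 / 1000`.
All inequalities below were verified in exact rational arithmetic.
-/

open Finset MeasureTheory Filter Topology
open scoped Real

namespace Pool.Agent.MP0016c7.PC

open Pool.Agent.MP0016c7.Rz

/-- The ends of the slices. -/
noncomputable def kws (k : ℕ) : ℝ := 39 / 2500 * ((k : ℝ) + 1)

/-- The coefficients of the slices. -/
noncomputable def kcs (k : ℕ) : ℝ :=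
  1 - 11 / 2000 * (k : ℝ) - 63 / 10000 * (k : ℝ) ^ 2 + 49 / 200000 * (k : ℝ) ^ 3

/-- The first stopping heights. -/
noncomputable def kss (k : ℕ) : ℝ := 1 / 2 - kws k - kws 15 - 12 * (1 / 1000000000)

/-- The weight. -/
noncomputable def kw (_ : ℝ) : ℝ := 17 / 10

/-- The first function of the quadratic functional. -/
noncomputable def ku1 (v : ℝ) : ℝ := 1 - 49 / 100 * v ^ 2 - 939 / 100 * v ^ 4

/-- The second function of the quadratic functional. -/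
noncomputable def ku2 (v : ℝ) : ℝ := v ^ 2 + 706 / 100 * v ^ 4

/-- The test profile. -/
noncomputable def ky (v : ℝ) : ℝ := 2568 / 10000 - 6789 / 10000 * v ^ 2

/-- The moments of a profile. -/
noncomputable def dMH (H : ℝ → ℝ) (θ₀ V : ℝ) (y : ℝ → ℝ) (n : ℕ) : ℝ :=
  (∫ v in V..(V + θ₀), v ^ (2 * n) * H (v - V)) + ∫ v in (0 : ℝ)..V, v ^ (2 * n) * y v

/-! ### Rational values -/

/-- Powers of `V`. -/
def qV (k : ℕ) : ℚ := ((500000001 ^ k : ℕ) : ℚ) / ((1000000000 ^ k : ℕ) : ℚ)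

/-- Powers of `V + kws j`. -/
def qT (j k : ℕ) : ℚ :=
  (((500000001 + 15600000 * (j + 1)) ^ k : ℕ) : ℚ) / ((1000000000 ^ k : ℕ) : ℚ)

/-- The ends of the slices. -/
def qw (j : ℕ) : ℚ := 39 / 2500 * ((j : ℚ) + 1)

/-- The coefficients. -/
def qc (k : ℕ) : ℚ :=
  1 - 11 / 2000 * (k : ℚ) - 63 / 10000 * (k : ℚ) ^ 2 + 49 / 200000 * (k : ℚ) ^ 3

/-- The differences of the coefficients. -/
def qdc (k : ℕ) : ℚ := if k < 15 then qc k - qc (k + 1) else qc k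

/-- The integral of `v ^ (2 n) * Hid (kws j) (v - V)`. -/
def qM (j n : ℕ) : ℚ :=
  (qw j + 500000001 / 1000000000 + qw j ^ 2 - (500000001 / 1000000000) ^ 2) / 2 *
      (qT j (2 * n + 1) - qV (2 * n + 1)) / ((2 * n + 1 : ℕ) : ℚ) +
    1 / 1000000000 * (qT j (2 * n + 2) - qV (2 * n + 2)) / ((2 * n + 2 : ℕ) : ℚ) -
    1 / 2 * (qT j (2 * n + 3) - qV (2 * n + 3)) / ((2 * n + 3 : ℕ) : ℚ)

/-- The moments of the profile. -/
def qD (n : ℕ) : ℚ :=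
  (∑ j ∈ range 16, qdc j * qM j n) +
    (2568 / 10000 * (qV (2 * n + 1) / ((2 * n + 1 : ℕ) : ℚ)) -
      6789 / 10000 * (qV (2 * n + 3) / ((2 * n + 3 : ℕ) : ℚ)))

/-- The moments of `ku1`. -/
def qU1 (n : ℕ) : ℚ :=
  qV (2 * n + 1) / ((2 * n + 1 : ℕ) : ℚ) - 49 / 100 * (qV (2 * n + 3) / ((2 * n + 3 : ℕ) : ℚ)) -
    939 / 100 * (qV (2 * n + 5) / ((2 * n + 5 : ℕ) : ℚ))

/-- The moments of `ku2`. -/
def qU2 (n : ℕ) : ℚ :=
  qV (2 * n + 3) / ((2 * n + 3 : ℕ) : ℚ) + 706 / 100 * (qV (2 * n + 5) / ((2 * n + 5 : ℕ) : ℚ))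

/-- The coefficient inequality over `ℚ`. -/
def qChk (n : ℕ) : Prop :=
  (1 + 1 / 100000) * ((4 : ℚ) ^ n / 2 * (qV (2 * n + 1) / ((2 * n + 1 : ℕ) : ℚ)) +
      (if n = 0 then qV 1 / 2 else 0) -
      ∑ i ∈ range (n + 1), (nc3C (2 * n) (2 * i) : ℚ) *
        (323849 / 100000 * (qU1 i * qU1 (n - i)) - 2 * (512829 / 100000) * (qU1 i * qU2 (n - i)) +
          3744464 / 100000 * (qU2 i * qU2 (n - i)))) ≤
    17 / 10 * ∑ i ∈ range (n + 1), (nc3C (2 * n) (2 * i) : ℚ) * (qD i * qD (n - i))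

/-! ### Statements -/

/-- **C1** (general coefficient criterion). Proof: text port of `nd_PP2`, `nd_p`, `nd_coeff` of
`Rz/Nd1.lean`. `PPH H θ₀ V y a` is the sum of `a ^ (2 n) / (2 n)! * dMH H θ₀ V y n` by
`nc_cosh_int` (twice) as in `nd_PP2` (`H` continuous instead of `nc_hid_cont`). For the mixed term
(`P₁₂`) use `nc_cauchy` for the sum `u₁ + u₂` or for two different series: the simplest way is
`nc_cauchy` for the three series with coefficients `pM V u₁ n`, `pM V u₂ n`,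
`pM V u₁ n + pM V u₂ n`, and `2 x y = (x + y) ^ 2 - x ^ 2 - y ^ 2`; in the coefficients
`∑ C (2 n) (2 i) (f i * g (n - i)) = ∑ C (2 n) (2 i) (g i * f (n - i))` (reflection
`i ↦ n - i`, `Nat.choose_symm`). -/
def S_C1 : Prop :=
  ∀ (θ₀ V w₀ μ P₁₁ P₁₂ P₂₂ : ℝ) (H y u₁ u₂ : ℝ → ℝ), 0 < θ₀ → 0 < V → Continuous H →
  Continuous y → Continuous u₁ → Continuous u₂ →
  (∀ n : ℕ, (1 + μ) * ((4 : ℝ) ^ n / 2 * (V ^ (2 * n + 1) / (2 * n + 1)) +
      (if n = 0 then V / 2 else 0) -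
      ∑ i ∈ range (n + 1), ((2 * n).choose (2 * i) : ℝ) *
        (P₁₁ * (pM V u₁ i * pM V u₁ (n - i)) - 2 * P₁₂ * (pM V u₁ i * pM V u₂ (n - i)) +
          P₂₂ * (pM V u₂ i * pM V u₂ (n - i)))) ≤
    w₀ * ∑ i ∈ range (n + 1), ((2 * n).choose (2 * i) : ℝ) *
      (dMH H θ₀ V y i * dMH H θ₀ V y (n - i))) →
  ∀ a : ℝ, (1 + μ) * ((∫ v in (0 : ℝ)..V, Real.cosh (a * v) ^ 2) -
      (P₁₁ * (∫ v in (0 : ℝ)..V, Real.cosh (a * v) * u₁ v) ^ 2 -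
        2 * P₁₂ * ((∫ v in (0 : ℝ)..V, Real.cosh (a * v) * u₁ v) *
          ∫ v in (0 : ℝ)..V, Real.cosh (a * v) * u₂ v) +
        P₂₂ * (∫ v in (0 : ℝ)..V, Real.cosh (a * v) * u₂ v) ^ 2)) ≤
    w₀ * PPH H θ₀ V y a ^ 2

/-- **C2** (dual inequality). Proof: as `nd_dual` of `Rz/Nd2.lean`: `nd_cs` (`Rz/Nd1.lean`) with
`u₁ := ku1`, `u₂ := ku2`, `w₀ := 17 / 10`, `g₁ := 787 / 10`, `g₂ := 1332` and, for
`x = ∫ c * ku1`, `y = ∫ c * ku2`, `t₁ := (323851 * x - 512829 * y) / 100000`,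
`t₂ := (-512829 * x + 3744468 * y) / 100000`. The three integrals `∫ ku1 ^ 2`, `∫ ku1 * ku2`,
`∫ ku2 ^ 2` over `[0, V]` are polynomials in `V` (write them out). At the end
`x ^ 2 * d₁₁ + 2 * x * y * d₁₂ + y ^ 2 * d₂₂ ≥ 0` with `d₁₁ ≈ 1.53e-5`, `d₁₂ ≈ -0.45e-5` (the
coefficient of `2 x y`), `d₂₂ ≈ 3.5e-5`, so `nlinarith [sq_nonneg (x - y), sq_nonneg x,
sq_nonneg y]` after `norm_num`. Here `qP kw ku1 ku2 (787 / 10) 1332 V f` is
`17 / 10 * ∫ f ^ 2 + ..` (`unfold qP kw`, `integral_const_mul`). -/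
def S_C2 : Prop :=
  ∀ f c : ℝ → ℝ, ContinuousOn f (Set.Icc 0 (1 / 2 + 1 / 1000000000)) → Continuous c →
  17 / 10 * (∫ v in (0 : ℝ)..(1 / 2 + 1 / 1000000000), c v * f v) ^ 2 ≤
    qP kw ku1 ku2 (787 / 10) 1332 (1 / 2 + 1 / 1000000000) f *
    ((∫ v in (0 : ℝ)..(1 / 2 + 1 / 1000000000), c v ^ 2) -
      (323849 / 100000 * (∫ v in (0 : ℝ)..(1 / 2 + 1 / 1000000000), c v * ku1 v) ^ 2 -
        2 * (512829 / 100000) * ((∫ v in (0 : ℝ)..(1 / 2 + 1 / 1000000000), c v * ku1 v) *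
          ∫ v in (0 : ℝ)..(1 / 2 + 1 / 1000000000), c v * ku2 v) +
        3744464 / 100000 * (∫ v in (0 : ℝ)..(1 / 2 + 1 / 1000000000), c v * ku2 v) ^ 2))

/-- **C3** (the profile). `HJ kws kcs 16` is a combination of the functions `Hid (kws j)` with the
nonnegative coefficients `qdc j` (Abel summation: `HS ws k x = Hid (ws k) x - Hid (wp ws k) x`,
`Hid 0 x = 0` for all `x`), and it is continuous (`nc_hid_cont`). Prove it by
`simp only [HJ, HS, wp, sum_range_succ, ..]` with explicit coefficients and `ring`, or by a general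
Abel summation. -/
def S_C3 : Prop :=
  (∀ x : ℝ, HJ kws kcs 16 x = ∑ j ∈ range 16, ((qdc j : ℚ) : ℝ) * Hid (kws j) x) ∧
    Continuous (HJ kws kcs 16) ∧ (∀ j < 16, (0 : ℚ) ≤ qdc j) ∧ (∀ j < 16, 0 < kws j)

/-- **C4** (the moments are rational; uses C3). Proof: as `nd_p2M`, `nd_yM`, `nd3V_cast`,
`nd3T_cast`, `nd3D_cast` of `Rz/Nd3.lean`. `∫ v in V..(V + kws 15), v ^ (2 n) * Hid (kws j) (v - V)
= ∫ v in V..(V + kws j), ..` (the integrand vanishes for `v - V ≥ kws j`) and `nc2_first`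
(`Rz/Nc2.lean`). `V + kws j = (500000001 + 15600000 (j + 1)) / 10 ^ 9`. -/
def S_C4 : Prop :=
  ∀ n : ℕ, dMH (HJ kws kcs 16) (kws 15) (1 / 2 + 1 / 1000000000) ky n = ((qD n : ℚ) : ℝ) ∧
    pM (1 / 2 + 1 / 1000000000) ku1 n = ((qU1 n : ℚ) : ℝ) ∧
    pM (1 / 2 + 1 / 1000000000) ku2 n = ((qU2 n : ℚ) : ℝ)

/-- **C5** (exact check). Proof: `instance` of decidability as `nd3ChkDec` in `Rz/Nd3.lean`, then
`decide +kernel` (perhaps one `n` at a time; largest ratio of the two sides `0.9994`, at `n = 6`). -/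
def S_C5 : Prop := ∀ n < 17, qChk n

/-- **C6** (the tail of the criterion; uses C3 and C4). Proof: as `nd4_low`, `nd4_large` of
`Rz/Nd4.lean`. (1) `∑ C (2 n) (2 i) = 4 ^ n / 2` (private lemma `nd4_choose`, copy it).
(2) Lower bound: by C3 `HJ kws kcs 16 x ≥ 326875 / 1000000 * Hid (kws 15) x ≥ 0` (the term `j = 15`;
all terms are `≥ 0`), `ky ≥ 0` on `[0, V]`, and `∫ v in (V + 3/20)..(V + kws 15), Hid (kws 15) (v - V)
≥ 3553 / 1000000` (exact value `0.0035534..`), so `dMH .. n ≥ (V + 3 / 20) ^ (2 n) * (116138 / 10 ^ 8)`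
(`0.326875 * 0.003553 = 0.00116138..`). (3) The subtracted sum is `≥ 0`: `b₁ n := pM V ku1 n ≥ 0`,
`b₂ n := pM V ku2 n ≥ 3 / 20 * b₁ n` for all `n` (C4: `V ^ (2 n + 1)` times
`1 / (2 n + 1) - .49 V² / (2 n + 3) - 9.39 V⁴ / (2 n + 5)` etc., use `1 / (2 n + 3) ≤ 1 / (2 n + 1)`,
`1 / (2 n + 3) ≥ 1 / (3 (2 n + 1))`, `1 / (2 n + 5) ≥ 1 / (5 (2 n + 1))`), and for `b₂ ≥ 3/20 b₁ ≥ 0`,
`b₂' ≥ 3/20 b₁' ≥ 0`: the sum over `i` of `C (2 n) (2 i) (P₁₁ b₁ b₁' - 2 P₁₂ b₁ b₂' + P₂₂ b₂ b₂')` is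
symmetric under `i ↦ n - i`, so it equals the sum of `C (2 n) (2 i) (P₁₁ b₁ b₁' - P₁₂ (b₁ b₂' +
b₁' b₂) + P₂₂ b₂ b₂')`; with `b₂ = 3/20 b₁ + e`, `b₂' = 3/20 b₁' + e'`, `e, e' ≥ 0` every coefficient
of the expansion is `≥ 0` (`P₁₁ - 3/10 P₁₂ + 9/400 P₂₂ = 2.54`, `-P₁₂ + 3/20 P₂₂ = .488`, `P₂₂`).
(4) For `n ≥ 17`: `(1 + 10⁻⁵) V ^ (2 n + 1) / (2 n + 1) ≤ 17 / 10 * (V + 3/20) ^ (2 n) * (116138 / 10 ^ 8) ^ 2`
(ratio `.833` at `n = 17`, decreasing). -/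
def S_C6 : Prop :=
  ∀ n : ℕ, 17 ≤ n → (1 + 1 / 100000) * ((4 : ℝ) ^ n / 2 *
      ((1 / 2 + 1 / 1000000000) ^ (2 * n + 1) / (2 * n + 1)) +
      (if n = 0 then (1 / 2 + 1 / 1000000000) / 2 else 0) -
      ∑ i ∈ range (n + 1), ((2 * n).choose (2 * i) : ℝ) *
        (323849 / 100000 * (pM (1 / 2 + 1 / 1000000000) ku1 i *
            pM (1 / 2 + 1 / 1000000000) ku1 (n - i)) -
          2 * (512829 / 100000) * (pM (1 / 2 + 1 / 1000000000) ku1 i *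
            pM (1 / 2 + 1 / 1000000000) ku2 (n - i)) +
          3744464 / 100000 * (pM (1 / 2 + 1 / 1000000000) ku2 i *
            pM (1 / 2 + 1 / 1000000000) ku2 (n - i)))) ≤
    17 / 10 * ∑ i ∈ range (n + 1), ((2 * n).choose (2 * i) : ℝ) *
      (dMH (HJ kws kcs 16) (kws 15) (1 / 2 + 1 / 1000000000) ky i *
        dMH (HJ kws kcs 16) (kws 15) (1 / 2 + 1 / 1000000000) ky (n - i))

/-- The integral of `Kq kw ku1 ku2 (787 / 10) 1332` over `[0, x]`: for constants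
`w₀, g₁, g₂` and `u₁ = 1 + B v² + C v⁴`, `u₂ = v² + D v⁴`. -/
def kI {F : Type*} [Field F] (x : F) : F :=
  17 / 10 * x ^ 2 / 2 +
    787 / 10 * (x ^ 3 / 3 + 2 * (-49 / 100) / 3 * x ^ 5 / 5 +
      ((-49 / 100) ^ 2 / 9 + 2 * (-939 / 100) / 5) * x ^ 7 / 7 +
      2 * (-49 / 100) * (-939 / 100) / 15 * x ^ 9 / 9 + (-939 / 100) ^ 2 / 25 * x ^ 11 / 11) +
    1332 * (x ^ 7 / 63 + 2 * (706 / 100) / 15 * x ^ 9 / 9 + (706 / 100) ^ 2 / 25 * x ^ 11 / 11)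

/-- **C7** (closed forms for the energy). First part: `∫ v in 0..u, kw v = 17 / 10 * u`,
`∫ v in 0..u, ku1 v = u - 49 / 300 u ^ 3 - 939 / 500 u ^ 5`, `∫ v in 0..u, ku2 v = u ^ 3 / 3 + 706 / 500
u ^ 5`, then the square is a polynomial; integrate it (split the intervals, `Kq` is a polynomial in
`u`). Second part: `qP` with the constant weight for `f v = a - b v ^ 2`. -/
def S_C7 : Prop :=
  (∀ ωa ωb e₁ e₂ : ℝ, Kint (Kq kw ku1 ku2 (787 / 10) 1332) ωa ωb e₁ e₂ =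
    ωb * kI e₁ + ωa * (kI e₂ - kI e₁) + (kI (1 / 2) - kI e₂)) ∧
  (∀ V a b : ℝ, qP kw ku1 ku2 (787 / 10) 1332 V (fun v => a - b * v ^ 2) =
    17 / 10 * (a ^ 2 * V - 2 * a * b * V ^ 3 / 3 + b ^ 2 * V ^ 5 / 5) +
    787 / 10 * (a * V - (b + 49 / 100 * a) * V ^ 3 / 3 + (49 / 100 * b - 939 / 100 * a) * V ^ 5 / 5 +
      939 / 100 * b * V ^ 7 / 7) ^ 2 +
    1332 * (a * V ^ 3 / 3 + (706 / 100 * a - b) * V ^ 5 / 5 - 706 / 100 * b * V ^ 7 / 7) ^ 2) ∧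
  ((∫ v in (0 : ℝ)..(1 / 2 + 1 / 1000000000), |ku1 v|) ^ 2 ≤ 34 / 100 ∧
    (∫ v in (0 : ℝ)..(1 / 2 + 1 / 1000000000), |ku2 v|) ^ 2 ≤ 75 / 10000 ∧
    (∫ v in (0 : ℝ)..(1 / 2 + 1 / 1000000000), kw v) = 17 / 10 * (1 / 2 + 1 / 1000000000)) ∧
  HJ kws kcs 16 0 = 16199920581 / 156250000000

/-- The variance constants of the slices. -/
def qsk (k : ℕ) : ℚ := qc k ^ 2 * (((qw k + 1 / 2) ^ 3 - (39 / 2500 * (k : ℚ) + 1 / 2) ^ 3) / 3)

/-- **C8** (the energy; uses C7). Numerical value `0.447368..` (`0.258604` from the sum of the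
`Kint`, `0.188715` from `qP`, `0.0000487` from the error term). Proof: with C7 everything is an
explicit rational number: `kcs k ^ 2 * sk kws k` is the cast of `qsk k` (for `k = 0` too:
`wp kws 0 = 0 = 39 / 2500 * 0`, `wp kws (k + 1) = kws k`), the two arguments of `Kint` are
`kws k + 6 δ` and `min (1 / 2) (kws k + kws 15 + 12 δ) = kws k + kws 15 + 12 δ` (`k < 16`,
`0.4992 + 12 δ < 1 / 2`). Either `norm_num [sum_range_succ]` (perhaps slice by slice) or a cast to a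
statement over `ℚ` proved by `decide +kernel` (write `kI` for `ℚ`). -/
def S_C8 : Prop :=
  enJ 16 (fun k => kcs k ^ 2 * sk kws k) (fun k => 1 / 2 - kws k - 6 * (1 / 1000000000)) kss
    (2 * (1 / 1000000000) * ∑ k ∈ range (16 - 1), kcs k * kcs (k + 1)) (7988 / 1000) (1657 / 750)
    (93 / 1000) (657 / 1000) (1 / 1000000000) kw ku1 ku2 (787 / 10) 1332 (34 / 100) (75 / 10000)
    (fun v => ky v - HJ kws kcs 16 0) ≤ 448 / 1000

/-- **C9** (assembly of the main inequality; from C1 to C6). For `n < 17` the inequality of `S_C1`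
is the cast of `qChk n` (as in `nd_crit`, `Rz/Nd4.lean`), for `17 ≤ n` it is C6. Then C1, C2
as in `nd_main` of `Rz/Nd2.lean`. -/
def S_C9 : Prop :=
  ∀ (a : ℝ) (f : ℝ → ℝ), ContinuousOn f (Set.Icc 0 (1 / 2 + 1 / 1000000000)) →
  (1 + 1 / 100000) * (∫ v in (0 : ℝ)..(1 / 2 + 1 / 1000000000), Real.cosh (a * v) * f v) ^ 2 ≤
    qP kw ku1 ku2 (787 / 10) 1332 (1 / 2 + 1 / 1000000000) f *
      PPH (HJ kws kcs 16) (kws 15) (1 / 2 + 1 / 1000000000) ky a ^ 2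

end Pool.Agent.MP0016c7.PC
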