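import Mathlib
import Pool.Agent.Lib.MP_0016c7_nt.PC.C.CStm

set_option autoImplicit false

/-!
Project PrimeConductors, block [C]: piece C1, the general coefficient criterion.
-/

open Finset MeasureTheory Filter Topology
open scoped Real

namespace Pool.Agent.MP0016c7.PC

open Pool.Agent.MP0016c7.Rz

private theorem c1_cauchy {f g : ℕ → ℝ} {S T a : ℝ}
    (h : HasSum (fun n : ℕ => a ^ (2 * n) / ((2 * n).factorial : ℝ) * f n) S)
    (h' : HasSum (fun n : ℕ => a ^ (2 * n) / ((2 * n).factorial : ℝ) * g n) T) :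
    HasSum (fun n : ℕ => a ^ (2 * n) / ((2 * n).factorial : ℝ) *
      ∑ i ∈ range (n + 1), ((2 * n).choose (2 * i) : ℝ) * (f i * g (n - i))) (S * T) := by
  have hs : Summable fun n : ℕ => ‖a ^ (2 * n) / ((2 * n).factorial : ℝ) * f n‖ :=
    h.summable.norm
  have hs' : Summable fun n : ℕ => ‖a ^ (2 * n) / ((2 * n).factorial : ℝ) * g n‖ :=
    h'.summable.norm
  have key := hasSum_sum_range_mul_of_summable_norm hs hs'
  rw [h.tsum_eq, h'.tsum_eq] at key
  refine nc_congr (fun n => ?_) key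
  rw [mul_sum]
  refine sum_congr rfl fun i hi => ?_
  have hin : i ≤ n := by
    rw [mem_range] at hi
    omega
  have h1 : ((2 * n).choose (2 * i) : ℝ) =
      ((2 * n).factorial : ℝ) / (((2 * i).factorial : ℝ) * ((2 * (n - i)).factorial : ℝ)) := by
    rw [Nat.cast_choose ℝ (by omega : 2 * i ≤ 2 * n)]
    rw [show 2 * n - 2 * i = 2 * (n - i) by omega]
  have h2 : a ^ (2 * n) = a ^ (2 * i) * a ^ (2 * (n - i)) := by
    rw [← pow_add]
    congr 1
    omega
  have f1 : ((2 * n).factorial : ℝ) ≠ 0 := by positivity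
  have f2 : ((2 * i).factorial : ℝ) ≠ 0 := by positivity
  have f3 : ((2 * (n - i)).factorial : ℝ) ≠ 0 := by positivity
  rw [h1, h2]
  field_simp

private theorem c1_PPH {θ₀ V : ℝ} (hθ₀ : 0 < θ₀) (hV : 0 < V) {H y : ℝ → ℝ} (hH : Continuous H)
    (hy : Continuous y) (a : ℝ) :
    HasSum (fun n : ℕ => a ^ (2 * n) / ((2 * n).factorial : ℝ) * dMH H θ₀ V y n)
      (PPH H θ₀ V y a) := by
  have h1 := nc_cosh_int (A := V) (B := V + θ₀) hV.le (by linarith) a
    (g := fun v => H (v - V))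
    (Continuous.intervalIntegrable (hH.comp (continuous_id.sub continuous_const)) _ _)
  have h2 := nc_cosh_int (A := 0) (B := V) le_rfl hV.le a (g := y) (hy.intervalIntegrable _ _)
  have h3 := h1.add h2
  unfold dMH PPH
  convert h3 using 2
  ring

theorem s_C1 : S_C1 := by
  intro θ₀ V w₀ μ P₁₁ P₁₂ P₂₂ H y u₁ u₂ hθ₀ hV hH hy hu₁ hu₂ hc a
  have hP := (c1_cauchy (c1_PPH hθ₀ hV hH hy a) (c1_PPH hθ₀ hV hH hy a)).mul_left w₀
  have hE1 := (c1_cauchy (nd_p hV hu₁ a) (nd_p hV hu₁ a)).mul_left P₁₁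
  have hE2 := (c1_cauchy (nd_p hV hu₁ a) (nd_p hV hu₂ a)).mul_left (2 * P₁₂)
  have hE3 := (c1_cauchy (nd_p hV hu₂ a) (nd_p hV hu₂ a)).mul_left P₂₂
  have hC := nd_p hV (p := fun _ => 1) continuous_const (2 * a)
  have eC : ∀ n : ℕ, pM V (fun _ => 1) n = V ^ (2 * n + 1) / (2 * n + 1) := by
    intro n
    unfold pM
    simp only [mul_one]
    rw [integral_pow, zero_pow (by omega), sub_zero]
    push_cast
    rfl
  have e1 : (∫ v in (0 : ℝ)..V, Real.cosh (a * v) ^ 2) =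
      1 / 2 * (∫ v in (0 : ℝ)..V, Real.cosh (2 * a * v) * 1) + V / 2 := by
    have c1 : ∀ v : ℝ, Real.cosh (a * v) ^ 2 =
        1 / 2 * (Real.cosh (2 * a * v) * 1) + 1 / 2 := by
      intro v
      have : Real.cosh (2 * a * v) = 2 * Real.cosh (a * v) ^ 2 - 1 := by
        rw [show 2 * a * v = 2 * (a * v) by ring, Real.cosh_two_mul, Real.sinh_sq]
        ring
      rw [this]
      ring
    simp only [c1]
    rw [intervalIntegral.integral_add, intervalIntegral.integral_const_mul,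
      intervalIntegral.integral_const, smul_eq_mul]
    · ring
    · exact (Continuous.intervalIntegrable (by fun_prop) _ _)
    · simp
  have s1 : HasSum (fun n : ℕ => a ^ (2 * n) / ((2 * n).factorial : ℝ) *
      (4 ^ n / 2 * (V ^ (2 * n + 1) / (2 * n + 1))))
      (1 / 2 * (∫ v in (0 : ℝ)..V, Real.cosh (2 * a * v) * 1)) := by
    refine nc_congr (fun n => ?_) (hC.mul_left (1 / 2))
    have : (2 * a) ^ (2 * n) = 4 ^ n * a ^ (2 * n) := by
      rw [mul_pow, pow_mul]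
      norm_num
    rw [this, eC]
    ring
  have s2 : HasSum (fun n : ℕ => a ^ (2 * n) / ((2 * n).factorial : ℝ) *
      (if n = 0 then V / 2 else 0)) (V / 2) := by
    have := hasSum_ite_eq (0 : ℕ) (V / 2)
    refine nc_congr (fun n => ?_) this
    by_cases hn : n = 0
    · subst hn
      simp
    · rw [if_neg hn, mul_zero]
  have s3 := (((s1.add s2).sub ((hE1.sub hE2).add hE3))).mul_left (1 + μ)
  have e3 : w₀ * PPH H θ₀ V y a ^ 2 = w₀ * (PPH H θ₀ V y a * PPH H θ₀ V y a) := by ring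
  have e4 : (1 + μ) * ((∫ v in (0 : ℝ)..V, Real.cosh (a * v) ^ 2) -
      (P₁₁ * (∫ v in (0 : ℝ)..V, Real.cosh (a * v) * u₁ v) ^ 2 -
        2 * P₁₂ * ((∫ v in (0 : ℝ)..V, Real.cosh (a * v) * u₁ v) *
          ∫ v in (0 : ℝ)..V, Real.cosh (a * v) * u₂ v) +
        P₂₂ * (∫ v in (0 : ℝ)..V, Real.cosh (a * v) * u₂ v) ^ 2)) =
      (1 + μ) * (1 / 2 * (∫ v in (0 : ℝ)..V, Real.cosh (2 * a * v) * 1) + V / 2 -
      (P₁₁ * ((∫ v in (0 : ℝ)..V, Real.cosh (a * v) * u₁ v) *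
          (∫ v in (0 : ℝ)..V, Real.cosh (a * v) * u₁ v)) -
        2 * P₁₂ * ((∫ v in (0 : ℝ)..V, Real.cosh (a * v) * u₁ v) *
          ∫ v in (0 : ℝ)..V, Real.cosh (a * v) * u₂ v) +
        P₂₂ * ((∫ v in (0 : ℝ)..V, Real.cosh (a * v) * u₂ v) *
          (∫ v in (0 : ℝ)..V, Real.cosh (a * v) * u₂ v)))) := by
    rw [e1]
    ring
  rw [e3, e4]
  refine hasSum_le (fun n => ?_) s3 hP
  have hfac : 0 ≤ a ^ (2 * n) / ((2 * n).factorial : ℝ) := by
    apply div_nonneg _ (by positivity)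
    rw [pow_mul]
    positivity
  have := mul_le_mul_of_nonneg_left (hc n) hfac
  have e2 : ∑ i ∈ range (n + 1), ((2 * n).choose (2 * i) : ℝ) *
        (P₁₁ * (pM V u₁ i * pM V u₁ (n - i)) - 2 * P₁₂ * (pM V u₁ i * pM V u₂ (n - i)) +
          P₂₂ * (pM V u₂ i * pM V u₂ (n - i))) =
      P₁₁ * (∑ i ∈ range (n + 1), ((2 * n).choose (2 * i) : ℝ) * (pM V u₁ i * pM V u₁ (n - i))) -
      2 * P₁₂ *
        (∑ i ∈ range (n + 1), ((2 * n).choose (2 * i) : ℝ) * (pM V u₁ i * pM V u₂ (n - i))) +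
      P₂₂ *
        (∑ i ∈ range (n + 1), ((2 * n).choose (2 * i) : ℝ) * (pM V u₂ i * pM V u₂ (n - i))) := by
    rw [mul_sum, mul_sum, mul_sum, ← sum_sub_distrib, ← sum_add_distrib]
    exact sum_congr rfl fun i _ => by ring
  rw [e2] at this
  refine le_trans (le_of_eq ?_) (this.trans (le_of_eq ?_))
  · ring
  · ring

end Pool.Agent.MP0016c7.PC
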