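import Mathlib
import Pool.Agent.Lib.MP_0016c7_nt.PC.C.CStm

set_option autoImplicit false

/-!
[C2] The dual inequality.
-/

open Finset MeasureTheory Filter Topology
open scoped Real

namespace Pool.Agent.MP0016c7.PC

open Pool.Agent.MP0016c7.Rz

private theorem c2_ku1_cont : Continuous ku1 := by unfold ku1; fun_prop
private theorem c2_ku2_cont : Continuous ku2 := by unfold ku2; fun_prop

private theorem c2_poly (V a0 a1 a2 a3 a4 : ℝ) :
    ∫ v in (0 : ℝ)..V, (a0 + a1 * v ^ 2 + a2 * v ^ 4 + a3 * v ^ 6 + a4 * v ^ 8) =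
      a0 * V + a1 * V ^ 3 / 3 + a2 * V ^ 5 / 5 + a3 * V ^ 7 / 7 + a4 * V ^ 9 / 9 := by
  have hi : ∀ (a : ℝ) (n : ℕ), IntervalIntegrable (fun v : ℝ => a * v ^ n) volume 0 V :=
    fun a n => (Continuous.intervalIntegrable (by fun_prop) _ _)
  have h0 : IntervalIntegrable (fun _ : ℝ => a0) volume 0 V :=
    (Continuous.intervalIntegrable (by fun_prop) _ _)
  rw [intervalIntegral.integral_add (((h0.add (hi a1 2)).add (hi a2 4)).add (hi a3 6)) (hi a4 8),
    intervalIntegral.integral_add ((h0.add (hi a1 2)).add (hi a2 4)) (hi a3 6),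
    intervalIntegral.integral_add (h0.add (hi a1 2)) (hi a2 4),
    intervalIntegral.integral_add h0 (hi a1 2),
    intervalIntegral.integral_const_mul, intervalIntegral.integral_const_mul,
    intervalIntegral.integral_const_mul, intervalIntegral.integral_const_mul, integral_pow,
    integral_pow, integral_pow, integral_pow, intervalIntegral.integral_const, smul_eq_mul]
  push_cast
  ring

private theorem c2_m11 (V : ℝ) : ∫ v in (0 : ℝ)..V, ku1 v ^ 2 =
    1 * V + (2 * (-49 / 100)) * V ^ 3 / 3 + ((-49 / 100) ^ 2 + 2 * (-939 / 100)) * V ^ 5 / 5 +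
      (2 * (-49 / 100) * (-939 / 100)) * V ^ 7 / 7 + ((-939 / 100) ^ 2) * V ^ 9 / 9 := by
  rw [← c2_poly]
  congr 1
  funext v
  unfold ku1
  ring

private theorem c2_m12 (V : ℝ) : ∫ v in (0 : ℝ)..V, ku1 v * ku2 v =
    0 * V + 1 * V ^ 3 / 3 + (706 / 100 + -49 / 100) * V ^ 5 / 5 +
      (-49 / 100 * (706 / 100) + -939 / 100) * V ^ 7 / 7 +
      (-939 / 100 * (706 / 100)) * V ^ 9 / 9 := by
  rw [← c2_poly]
  congr 1
  funext v
  unfold ku1 ku2
  ring

private theorem c2_m22 (V : ℝ) : ∫ v in (0 : ℝ)..V, ku2 v ^ 2 =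
    0 * V + 0 * V ^ 3 / 3 + 1 * V ^ 5 / 5 + (2 * (706 / 100)) * V ^ 7 / 7 +
      ((706 / 100) ^ 2) * V ^ 9 / 9 := by
  rw [← c2_poly]
  congr 1
  funext v
  unfold ku2
  ring

theorem s_C2 : S_C2 := by
  intro f c hf hc
  set V : ℝ := 1 / 2 + 1 / 1000000000 with hV
  have hV0 : 0 < V := by rw [hV]; norm_num
  set x := ∫ v in (0 : ℝ)..V, c v * ku1 v with hx
  set y := ∫ v in (0 : ℝ)..V, c v * ku2 v with hy
  have hcs := nd_cs (w₀ := 17 / 10) (g₁ := 787 / 10) (g₂ := 1332) hV0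
    (by norm_num) (by norm_num) (by norm_num) hf hc c2_ku1_cont c2_ku2_cont
    ((323851 * x - 512829 * y) / 100000) ((-512829 * x + 3744468 * y) / 100000)
  rw [← hx, ← hy, c2_m11, c2_m22, c2_m12] at hcs
  set C := ∫ v in (0 : ℝ)..V, c v ^ 2 with hC
  set S := ∫ v in (0 : ℝ)..V, c v * f v with hS
  have hq : qP kw ku1 ku2 (787 / 10) 1332 V f =
      17 / 10 * (∫ v in (0 : ℝ)..V, f v ^ 2) +
        787 / 10 * (∫ v in (0 : ℝ)..V, ku1 v * f v) ^ 2 +
        1332 * (∫ v in (0 : ℝ)..V, ku2 v * f v) ^ 2 := by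
    unfold qP kw
    rw [intervalIntegral.integral_const_mul]
  rw [hq]
  set Q := 17 / 10 * (∫ v in (0 : ℝ)..V, f v ^ 2) +
        787 / 10 * (∫ v in (0 : ℝ)..V, ku1 v * f v) ^ 2 +
        1332 * (∫ v in (0 : ℝ)..V, ku2 v * f v) ^ 2 with hQ
  have hQ0 : 0 ≤ Q := by
    have : 0 ≤ ∫ v in (0 : ℝ)..V, f v ^ 2 :=
      intervalIntegral.integral_nonneg hV0.le fun v _ => sq_nonneg _
    positivity
  have h2 := mul_le_mul_of_nonneg_left hcs (by norm_num : (0 : ℝ) ≤ 17 / 10)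
  refine h2.trans ?_
  have h3 : ∀ Z : ℝ, 17 / 10 * (Q * (Z / (17 / 10))) = Q * Z := by
    intro Z
    field_simp
  rw [h3]
  refine mul_le_mul_of_nonneg_left ?_ hQ0
  rw [hV]
  norm_num
  nlinarith [sq_nonneg (x - y), sq_nonneg x, sq_nonneg y]

end Pool.Agent.MP0016c7.PC
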