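import Pool.Agent.Lib.MP_0016c7_nt.PC.C.CStm

set_option autoImplicit false

/-!
Piece C3 of block [C]: the profile as a combination of the functions `Hid`.
-/

open Finset MeasureTheory Filter Topology
open scoped Real

namespace Pool.Agent.MP0016c7.PC

open Pool.Agent.MP0016c7.Rz

private lemma c3_hid0 (x : ℝ) : Hid 0 x = 0 := by
  unfold Hid
  split_ifs with h
  · rfl
  · have : max x 0 = 0 := max_eq_right (not_le.mp h).le
    rw [this]
    norm_num

private lemma c3_abel (c h : ℕ → ℝ) (n : ℕ) :
    ∑ k ∈ range (n + 1), c k * (h k - if k = 0 then 0 else h (k - 1)) =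
      (∑ j ∈ range n, (c j - c (j + 1)) * h j) + c n * h n := by
  induction n with
  | zero => simp
  | succ n ih =>
    rw [sum_range_succ, ih, sum_range_succ]
    simp only [Nat.add_eq_zero_iff, one_ne_zero, and_false, if_false, Nat.add_sub_cancel]
    ring

private lemma c3_kcs (k : ℕ) : kcs k = ((qc k : ℚ) : ℝ) := by
  unfold kcs qc
  push_cast
  ring

private lemma c3_eq (x : ℝ) :
    HJ kws kcs 16 x = ∑ j ∈ range 16, ((qdc j : ℚ) : ℝ) * Hid (kws j) x := by
  have h1 : HJ kws kcs 16 x = ∑ k ∈ range (15 + 1), kcs k *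
      (Hid (kws k) x - if k = 0 then 0 else Hid (kws (k - 1)) x) := by
    unfold HJ HS wp
    refine sum_congr rfl fun k _ => ?_
    split_ifs with h
    · rw [c3_hid0]
    · rfl
  rw [h1, c3_abel kcs (fun k => Hid (kws k) x) 15, sum_range_succ (fun j => ((qdc j : ℚ) : ℝ) *
    Hid (kws j) x) 15]
  congr 1
  · refine sum_congr rfl fun j hj => ?_
    have hj' : j < 15 := mem_range.mp hj
    simp only [qdc, hj', if_true, c3_kcs]
    push_cast
    ring
  · simp only [qdc, lt_irrefl, if_false, c3_kcs]

theorem s_C3 : S_C3 := by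
  refine ⟨c3_eq, ?_, ?_, ?_⟩
  · have h : HJ kws kcs 16 = fun x => ∑ j ∈ range 16, ((qdc j : ℚ) : ℝ) * Hid (kws j) x := by
      funext x
      exact c3_eq x
    rw [h]
    refine continuous_finsetSum _ fun j _ => continuous_const.mul ?_
    exact nc_hid_cont (by unfold kws; positivity)
  · intro j hj
    interval_cases j <;> norm_num [qdc, qc]
  · intro j _
    unfold kws
    positivity

end Pool.Agent.MP0016c7.PC
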