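import Mathlib
import Pool.Agent.Lib.MP_0016c7_nt.PC.C.CStm
import Pool.Agent.Lib.MP_0016c7_nt.Rz.Nc2

set_option autoImplicit false

/-!
Block [C], piece C4: the moments of the profile and of `ku1`, `ku2` are rational.
-/

open Finset MeasureTheory Filter Topology
open scoped Real

namespace Pool.Agent.MP0016c7.PC

open Pool.Agent.MP0016c7.Rz

private theorem c4_V_cast (k : ℕ) : ((qV k : ℚ) : ℝ) = (1 / 2 + 1 / 1000000000) ^ k := by
  unfold qV
  push_cast
  rw [← div_pow]
  congr 1
  norm_num

private theorem c4_w_cast (j : ℕ) : ((qw j : ℚ) : ℝ) = kws j := by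
  unfold qw kws
  push_cast
  ring

private theorem c4_T_cast (j k : ℕ) :
    ((qT j k : ℚ) : ℝ) = (1 / 2 + 1 / 1000000000 + kws j) ^ k := by
  unfold qT kws
  push_cast
  rw [← div_pow]
  congr 1
  ring

/-- moments of monomials -/
private theorem c4_pow (V : ℝ) (n m : ℕ) :
    (∫ v in (0 : ℝ)..V, v ^ (2 * n + m)) = V ^ (2 * n + m + 1) / (2 * n + m + 1) := by
  rw [integral_pow, zero_pow (by omega), sub_zero]
  push_cast
  ring

private theorem c4_ky (V : ℝ) (n : ℕ) : (∫ v in (0 : ℝ)..V, v ^ (2 * n) * ky v) =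
    2568 / 10000 * (V ^ (2 * n + 1) / (2 * n + 1)) -
      6789 / 10000 * (V ^ (2 * n + 3) / (2 * n + 3)) := by
  have e : (fun v : ℝ => v ^ (2 * n) * ky v) =
      fun v => 2568 / 10000 * v ^ (2 * n + 0) - 6789 / 10000 * v ^ (2 * n + 2) := by
    funext v
    unfold ky
    ring
  rw [e, intervalIntegral.integral_sub, intervalIntegral.integral_const_mul,
    intervalIntegral.integral_const_mul, c4_pow, c4_pow]
  · push_cast
    ring
  · exact (Continuous.intervalIntegrable (by fun_prop) _ _)
  · exact (Continuous.intervalIntegrable (by fun_prop) _ _)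

private theorem c4_ku1 (V : ℝ) (n : ℕ) : pM V ku1 n =
    V ^ (2 * n + 1) / (2 * n + 1) - 49 / 100 * (V ^ (2 * n + 3) / (2 * n + 3)) -
      939 / 100 * (V ^ (2 * n + 5) / (2 * n + 5)) := by
  unfold pM
  have e : (fun v : ℝ => v ^ (2 * n) * ku1 v) =
      fun v => v ^ (2 * n + 0) - 49 / 100 * v ^ (2 * n + 2) - 939 / 100 * v ^ (2 * n + 4) := by
    funext v
    unfold ku1
    ring
  rw [e, intervalIntegral.integral_sub, intervalIntegral.integral_sub,
    intervalIntegral.integral_const_mul,
    intervalIntegral.integral_const_mul, c4_pow, c4_pow, c4_pow]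
  · push_cast
    ring
  · exact (Continuous.intervalIntegrable (by fun_prop) _ _)
  · exact (Continuous.intervalIntegrable (by fun_prop) _ _)
  · exact (Continuous.intervalIntegrable (by fun_prop) _ _)
  · exact (Continuous.intervalIntegrable (by fun_prop) _ _)

private theorem c4_ku2 (V : ℝ) (n : ℕ) : pM V ku2 n =
    V ^ (2 * n + 3) / (2 * n + 3) + 706 / 100 * (V ^ (2 * n + 5) / (2 * n + 5)) := by
  unfold pM
  have e : (fun v : ℝ => v ^ (2 * n) * ku2 v) =
      fun v => v ^ (2 * n + 2) + 706 / 100 * v ^ (2 * n + 4) := by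
    funext v
    unfold ku2
    ring
  rw [e, intervalIntegral.integral_add,
    intervalIntegral.integral_const_mul, c4_pow, c4_pow]
  · push_cast
    ring
  · exact (Continuous.intervalIntegrable (by fun_prop) _ _)
  · exact (Continuous.intervalIntegrable (by fun_prop) _ _)

/-- the integral over the longer interval -/
private theorem c4_first {V θ θ' : ℝ} (hθ : 0 < θ) (hle : θ ≤ θ') (n : ℕ) :
    (∫ v in V..(V + θ'), v ^ (2 * n) * Hid θ (v - V)) =
      ∫ v in V..(V + θ), v ^ (2 * n) * Hid θ (v - V) := by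
  have hc : Continuous (fun v : ℝ => v ^ (2 * n) * Hid θ (v - V)) := by
    have := nc_hid_cont hθ
    exact (continuous_pow _).mul (this.comp (continuous_id.sub continuous_const))
  rw [← intervalIntegral.integral_add_adjacent_intervals (hc.intervalIntegrable V (V + θ))
    (hc.intervalIntegrable (V + θ) (V + θ'))]
  have h0 : (∫ v in (V + θ)..(V + θ'), v ^ (2 * n) * Hid θ (v - V)) = 0 := by
    have e : (∫ v in (V + θ)..(V + θ'), v ^ (2 * n) * Hid θ (v - V)) =
        ∫ v in (V + θ)..(V + θ'), (0 : ℝ) := by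
      apply intervalIntegral.integral_congr
      intro v hv
      rw [Set.uIcc_of_le (by linarith)] at hv
      simp only
      have : Hid θ (v - V) = 0 := by
        unfold Hid
        rw [if_pos (by linarith [hv.1])]
      rw [this, mul_zero]
    rw [e, intervalIntegral.integral_zero]
  rw [h0, add_zero]

private theorem c4_M (j n : ℕ) (hj : j < 16) (hpos : 0 < kws j) :
    (∫ v in (1 / 2 + 1 / 1000000000 : ℝ)..(1 / 2 + 1 / 1000000000 + kws 15),
      v ^ (2 * n) * Hid (kws j) (v - (1 / 2 + 1 / 1000000000))) = ((qM j n : ℚ) : ℝ) := by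
  have hle : kws j ≤ kws 15 := by
    unfold kws
    have : (j : ℝ) ≤ 15 := by
      have : j ≤ 15 := by omega
      exact_mod_cast this
    push_cast
    linarith
  rw [c4_first hpos hle, nc2_first hpos, qM]
  push_cast
  rw [c4_V_cast, c4_V_cast, c4_V_cast, c4_T_cast, c4_T_cast, c4_T_cast, c4_w_cast]
  norm_num

theorem s_C4 (h3 : S_C3) : S_C4 := by
  intro n
  obtain ⟨hHJ, -, -, hpos⟩ := h3
  refine ⟨?_, ?_, ?_⟩
  · unfold dMH
    rw [c4_ky]
    have e1 : (fun v : ℝ => v ^ (2 * n) * HJ kws kcs 16 (v - (1 / 2 + 1 / 1000000000))) =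
        fun v => ∑ j ∈ range 16, ((qdc j : ℚ) : ℝ) *
          (v ^ (2 * n) * Hid (kws j) (v - (1 / 2 + 1 / 1000000000))) := by
      funext v
      rw [hHJ, mul_sum]
      refine sum_congr rfl fun j _ => ?_
      ring
    rw [e1, intervalIntegral.integral_finsetSum]
    · have e2 : ∀ j ∈ range 16, (∫ v in (1 / 2 + 1 / 1000000000 : ℝ)..(1 / 2 + 1 / 1000000000 + kws 15),
          ((qdc j : ℚ) : ℝ) * (v ^ (2 * n) * Hid (kws j) (v - (1 / 2 + 1 / 1000000000)))) =
          ((qdc j : ℚ) : ℝ) * ((qM j n : ℚ) : ℝ) := by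
        intro j hj
        rw [mem_range] at hj
        rw [intervalIntegral.integral_const_mul, c4_M j n hj (hpos j hj)]
      rw [sum_congr rfl e2, qD]
      push_cast
      rw [c4_V_cast, c4_V_cast]
    · intro j hj
      rw [mem_range] at hj
      apply Continuous.intervalIntegrable
      have := nc_hid_cont (hpos j hj)
      exact continuous_const.mul
        ((continuous_pow _).mul (this.comp (continuous_id.sub continuous_const)))
  · rw [c4_ku1, qU1]
    push_cast
    rw [c4_V_cast, c4_V_cast, c4_V_cast]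
  · rw [c4_ku2, qU2]
    push_cast
    rw [c4_V_cast, c4_V_cast]

end Pool.Agent.MP0016c7.PC
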