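import Mathlib
import Pool.Agent.Lib.MP_0016c7_nt.PC.C.CStm

set_option autoImplicit false

/-!
Project PrimeConductors, block [C], C5: the exact check.
-/

open Finset

namespace Pool.Agent.MP0016c7.PC

open Pool.Agent.MP0016c7.Rz

instance qChkDec (n : ℕ) : Decidable (qChk n) := by unfold qChk; infer_instance

theorem s_C5 : S_C5 := by
  unfold S_C5
  decide +kernel

end Pool.Agent.MP0016c7.PC
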