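import Mathlib
import Pool.Agent.Lib.MP_0016c7_nt.PC.C.CStm
import Pool.Agent.Lib.MP_0016c7_nt.Rz.Nc2

set_option autoImplicit false

/-!
Block [C], piece C6: the tail of the coefficient criterion.
-/

open Finset MeasureTheory Filter Topology
open scoped Real

namespace Pool.Agent.MP0016c7.PC

open Pool.Agent.MP0016c7.Rz

private lemma c6_even_sum (f : ℕ → ℝ) (n : ℕ) :
    ∑ k ∈ range (2 * n + 1), f k = ∑ i ∈ range (n + 1), f (2 * i) + ∑ i ∈ range n, f (2 * i + 1) := by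
  induction n with
  | zero => simp
  | succ n ih =>
    rw [show 2 * (n + 1) + 1 = 2 * n + 1 + 1 + 1 by ring, sum_range_succ, sum_range_succ, ih,
      sum_range_succ (fun i => f (2 * i)) (n + 1), sum_range_succ (fun i => f (2 * i + 1)) n]
    rw [show 2 * (n + 1) = 2 * n + 1 + 1 by ring]
    ring

private lemma c6_choose (n : ℕ) (hn : n ≠ 0) :
    ∑ i ∈ range (n + 1), ((2 * n).choose (2 * i) : ℝ) = (4 : ℝ) ^ n / 2 := by
  have h1 : ∑ k ∈ range (2 * n + 1), ((2 * n).choose k : ℝ) = (4 : ℝ) ^ n := by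
    have := Nat.sum_range_choose (2 * n)
    have h : ((∑ m ∈ range (2 * n + 1), (2 * n).choose m : ℕ) : ℝ) = ((2 ^ (2 * n) : ℕ) : ℝ) := by
      rw [this]
    push_cast at h
    rw [h, pow_mul]
    norm_num
  have h2 : ∑ k ∈ range (2 * n + 1), (-1 : ℝ) ^ k * ((2 * n).choose k : ℝ) = 0 := by
    have := Int.alternating_sum_range_choose_of_ne (n := 2 * n) (by omega)
    have h : ((∑ m ∈ range (2 * n + 1), (-1) ^ m * ((2 * n).choose m : ℤ) : ℤ) : ℝ) = 0 := by
      rw [this]; norm_num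
    push_cast at h
    exact h
  rw [c6_even_sum] at h1 h2
  have h3 : ∑ i ∈ range (n + 1), (-1 : ℝ) ^ (2 * i) * ((2 * n).choose (2 * i) : ℝ) =
      ∑ i ∈ range (n + 1), ((2 * n).choose (2 * i) : ℝ) := by
    refine Finset.sum_congr rfl fun i _ => ?_
    rw [pow_mul]; norm_num
  have h4 : ∑ i ∈ range n, (-1 : ℝ) ^ (2 * i + 1) * ((2 * n).choose (2 * i + 1) : ℝ) =
      -∑ i ∈ range n, ((2 * n).choose (2 * i + 1) : ℝ) := by
    rw [← Finset.sum_neg_distrib]
    refine Finset.sum_congr rfl fun i _ => ?_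
    rw [pow_succ, pow_mul]; norm_num
  rw [h3, h4] at h2
  linarith

private lemma c6_hid_nonneg {θ₀ x : ℝ} (h : 0 < θ₀) : 0 ≤ Hid θ₀ x := by
  unfold Hid
  split_ifs with h1
  · exact le_rfl
  · have h2 : max x 0 ≤ θ₀ := max_le (not_le.1 h1).le h.le
    have h3 : 0 ≤ max x 0 := le_max_right _ _
    nlinarith

private lemma c6_HJ (h3 : S_C3) (x : ℝ) :
    0 ≤ HJ kws kcs 16 x ∧ 326875 / 1000000 * Hid (kws 15) x ≤ HJ kws kcs 16 x := by
  obtain ⟨e, _, hn, hw⟩ := h3
  rw [e x]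
  have ht : ∀ j ∈ range 16, 0 ≤ ((qdc j : ℚ) : ℝ) * Hid (kws j) x := by
    intro j hj
    exact mul_nonneg (by exact_mod_cast hn j (mem_range.1 hj))
      (c6_hid_nonneg (hw j (mem_range.1 hj)))
  refine ⟨Finset.sum_nonneg ht, ?_⟩
  have h := Finset.single_le_sum ht (mem_range.2 (by norm_num : 15 < 16))
  have h15 : ((qdc 15 : ℚ) : ℝ) = 326875 / 1000000 := by
    unfold qdc qc
    norm_num
  rw [h15] at h
  exact h

/-- The lower bound of the moments. -/
private lemma c6_low (h3 : S_C3) (n : ℕ) :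
    (1 / 2 + 1 / 1000000000 + 3 / 20 : ℝ) ^ (2 * n) * (116138 / 100000000) ≤
      dMH (HJ kws kcs 16) (kws 15) (1 / 2 + 1 / 1000000000) ky n := by
  have hHJ := c6_HJ h3
  have hcontH : Continuous (HJ kws kcs 16) := h3.2.1
  have hk15 : kws 15 = 156 / 625 := by unfold kws; norm_num
  rw [hk15] at hHJ ⊢
  unfold dMH
  set V : ℝ := 1 / 2 + 1 / 1000000000 with hV
  set θ : ℝ := 156 / 625 with hθ
  clear_value V θ
  have hV0 : 0 < V := by rw [hV]; norm_num
  have hθ0 : 0 < θ := by rw [hθ]; norm_num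
  have h2 : 0 ≤ ∫ v in (0 : ℝ)..V, v ^ (2 * n) * ky v := by
    apply intervalIntegral.integral_nonneg hV0.le
    intro v hv
    apply mul_nonneg (pow_nonneg hv.1 _)
    unfold ky
    have : v ^ 2 ≤ V ^ 2 := pow_le_pow_left₀ hv.1 hv.2 2
    rw [hV] at this
    norm_num at this ⊢
    linarith
  have hcont : Continuous fun v : ℝ => v ^ (2 * n) * HJ kws kcs 16 (v - V) :=
    (continuous_pow _).mul (hcontH.comp (continuous_id.sub continuous_const))
  have hsplit : (∫ v in V..(V + θ), v ^ (2 * n) * HJ kws kcs 16 (v - V)) =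
      (∫ v in V..(V + 3 / 20), v ^ (2 * n) * HJ kws kcs 16 (v - V)) +
      ∫ v in (V + 3 / 20)..(V + θ), v ^ (2 * n) * HJ kws kcs 16 (v - V) :=
    (intervalIntegral.integral_add_adjacent_intervals (hcont.intervalIntegrable _ _)
      (hcont.intervalIntegrable _ _)).symm
  have h3' : 0 ≤ ∫ v in V..(V + 3 / 20), v ^ (2 * n) * HJ kws kcs 16 (v - V) := by
    apply intervalIntegral.integral_nonneg (by linarith)
    intro v hv
    exact mul_nonneg (pow_nonneg (hV0.le.trans hv.1) _) (hHJ _).1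
  have h4 : (V + 3 / 20) ^ (2 * n) * (116138 / 100000000) ≤
      ∫ v in (V + 3 / 20)..(V + θ), v ^ (2 * n) * HJ kws kcs 16 (v - V) := by
    have e : (∫ v in (V + 3 / 20)..(V + θ), (V + 3 / 20) ^ (2 * n) * (326875 / 1000000) *
        ((θ + V + θ ^ 2 - V ^ 2) / 2 + (V - 1 / 2) * v - 1 / 2 * v ^ 2)) =
        (V + 3 / 20) ^ (2 * n) * (326875 / 1000000) *
          ((θ + V + θ ^ 2 - V ^ 2) / 2 * (θ - 3 / 20) +
          (V - 1 / 2) * ((V + θ) ^ 2 - (V + 3 / 20) ^ 2) / 2 -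
          1 / 2 * (((V + θ) ^ 3 - (V + 3 / 20) ^ 3) / 3)) := by
      rw [intervalIntegral.integral_const_mul, intervalIntegral.integral_sub,
        intervalIntegral.integral_add, intervalIntegral.integral_const_mul,
        intervalIntegral.integral_const_mul, integral_pow, integral_id,
        intervalIntegral.integral_const, smul_eq_mul]
      · push_cast
        ring
      · exact (Continuous.intervalIntegrable (by fun_prop) _ _)
      · exact (Continuous.intervalIntegrable (by fun_prop) _ _)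
      · exact (Continuous.intervalIntegrable (by fun_prop) _ _)
      · exact (Continuous.intervalIntegrable (by fun_prop) _ _)
    have h5 : (V + 3 / 20) ^ (2 * n) * (116138 / 100000000) ≤
        (V + 3 / 20) ^ (2 * n) * (326875 / 1000000) *
        ((θ + V + θ ^ 2 - V ^ 2) / 2 * (θ - 3 / 20) +
          (V - 1 / 2) * ((V + θ) ^ 2 - (V + 3 / 20) ^ 2) / 2 -
          1 / 2 * (((V + θ) ^ 3 - (V + 3 / 20) ^ 3) / 3)) := by
      rw [mul_assoc]
      refine mul_le_mul_of_nonneg_left ?_ (by positivity)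
      rw [hV, hθ]
      norm_num
    refine h5.trans ?_
    rw [← e]
    apply intervalIntegral.integral_mono_on
    · rw [hθ]; norm_num
    · exact (Continuous.intervalIntegrable (by fun_prop) _ _)
    · exact hcont.intervalIntegrable _ _
    · intro v hv
      have hv1 : V ≤ v := by linarith [hv.1]
      have h6 := nc2_hid (θ₀ := θ) hv1 hv.2
      have h7 := (hHJ (v - V)).2
      rw [← h6]
      have h8 : 0 ≤ Hid θ (v - V) := c6_hid_nonneg hθ0
      calc (V + 3 / 20) ^ (2 * n) * (326875 / 1000000) * Hid θ (v - V)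
          = (V + 3 / 20) ^ (2 * n) * (326875 / 1000000 * Hid θ (v - V)) := by ring
        _ ≤ v ^ (2 * n) * HJ kws kcs 16 (v - V) := by
            refine mul_le_mul ?_ h7 (by positivity) (pow_nonneg (hV0.le.trans hv1) _)
            exact pow_le_pow_left₀ (by positivity) hv.1 _
  rw [hsplit]
  linarith

private lemma c6_large (h3 : S_C3) (n : ℕ) (hn : 17 ≤ n) :
    (1 + 1 / 100000) * ((4 : ℝ) ^ n / 2 *
      ((1 / 2 + 1 / 1000000000) ^ (2 * n + 1) / (2 * n + 1))) ≤
      17 / 10 * ∑ i ∈ range (n + 1), ((2 * n).choose (2 * i) : ℝ) *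
      (dMH (HJ kws kcs 16) (kws 15) (1 / 2 + 1 / 1000000000) ky i *
        dMH (HJ kws kcs 16) (kws 15) (1 / 2 + 1 / 1000000000) ky (n - i)) := by
  have hlow := c6_low h3
  set V : ℝ := 1 / 2 + 1 / 1000000000 with hV
  clear_value V
  have hV0 : 0 < V := by rw [hV]; norm_num
  have h1 : ∑ i ∈ range (n + 1), ((2 * n).choose (2 * i) : ℝ) *
        ((V + 3 / 20) ^ (2 * n) * (116138 / 100000000) ^ 2) ≤
      ∑ i ∈ range (n + 1), ((2 * n).choose (2 * i) : ℝ) *
        (dMH (HJ kws kcs 16) (kws 15) V ky i * dMH (HJ kws kcs 16) (kws 15) V ky (n - i)) := by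
    refine Finset.sum_le_sum fun i hi => ?_
    have hi' : i ≤ n := by have := mem_range.1 hi; omega
    refine mul_le_mul_of_nonneg_left ?_ (Nat.cast_nonneg _)
    have e1 : (V + 3 / 20) ^ (2 * n) * (116138 / 100000000) ^ 2 =
        ((V + 3 / 20) ^ (2 * i) * (116138 / 100000000)) *
          ((V + 3 / 20) ^ (2 * (n - i)) * (116138 / 100000000)) := by
      have h2 : (V + 3 / 20) ^ (2 * n) = (V + 3 / 20) ^ (2 * i) * (V + 3 / 20) ^ (2 * (n - i)) := by
        rw [← pow_add]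
        congr 1
        omega
      rw [h2]
      ring
    rw [e1]
    exact mul_le_mul (hlow i) (hlow (n - i)) (by positivity)
      (le_trans (by positivity) (hlow i))
  have h2 := mul_le_mul_of_nonneg_left h1 (by norm_num : (0 : ℝ) ≤ 17 / 10)
  refine le_trans ?_ h2
  rw [← Finset.sum_mul, c6_choose n (by omega)]
  obtain ⟨k, rfl⟩ : ∃ k, n = 17 + k := ⟨n - 17, by omega⟩
  have h3 : (V ^ (2 * (17 + k) + 1)) / (2 * ((17 + k : ℕ) : ℝ) + 1) ≤ V ^ 35 / 35 * (V ^ 2) ^ k := by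
    have e : V ^ (2 * (17 + k) + 1) = V ^ 35 * (V ^ 2) ^ k := by
      rw [← pow_mul, ← pow_add]
      congr 1
      omega
    rw [e]
    have h4 : (35 : ℝ) ≤ 2 * ((17 + k : ℕ) : ℝ) + 1 := by
      push_cast
      have : (0 : ℝ) ≤ k := Nat.cast_nonneg k
      linarith
    calc V ^ 35 * (V ^ 2) ^ k / (2 * ((17 + k : ℕ) : ℝ) + 1) ≤ V ^ 35 * (V ^ 2) ^ k / 35 :=
          div_le_div_of_nonneg_left (by positivity) (by norm_num) h4
      _ = V ^ 35 / 35 * (V ^ 2) ^ k := by ring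
  have h5 : (V + 3 / 20) ^ 34 * (V ^ 2) ^ k ≤ (V + 3 / 20) ^ (2 * (17 + k)) := by
    have e : (V + 3 / 20) ^ (2 * (17 + k)) = (V + 3 / 20) ^ 34 * ((V + 3 / 20) ^ 2) ^ k := by
      rw [← pow_mul, ← pow_add]
      congr 1
      omega
    rw [e]
    refine mul_le_mul_of_nonneg_left ?_ (by positivity)
    refine pow_le_pow_left₀ (by positivity) ?_ k
    exact pow_le_pow_left₀ hV0.le (by linarith) 2
  have h6 : (1 + 1 / 100000) * (V ^ 35 / 35) ≤
      17 / 10 * ((V + 3 / 20) ^ 34 * (116138 / 100000000) ^ 2) := by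
    rw [hV]
    norm_num
  have hP : (0 : ℝ) ≤ (4 : ℝ) ^ (17 + k) / 2 := by positivity
  have hQ : (0 : ℝ) ≤ (V ^ 2) ^ k := by positivity
  calc (1 + 1 / 100000) * ((4 : ℝ) ^ (17 + k) / 2 *
        (V ^ (2 * (17 + k) + 1) / (2 * ((17 + k : ℕ) : ℝ) + 1)))
      ≤ (1 + 1 / 100000) * ((4 : ℝ) ^ (17 + k) / 2 * (V ^ 35 / 35 * (V ^ 2) ^ k)) := by
        refine mul_le_mul_of_nonneg_left (mul_le_mul_of_nonneg_left h3 hP) (by norm_num)
    _ = (4 : ℝ) ^ (17 + k) / 2 * (V ^ 2) ^ k * ((1 + 1 / 100000) * (V ^ 35 / 35)) := by ring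
    _ ≤ (4 : ℝ) ^ (17 + k) / 2 * (V ^ 2) ^ k *
        (17 / 10 * ((V + 3 / 20) ^ 34 * (116138 / 100000000) ^ 2)) :=
        mul_le_mul_of_nonneg_left h6 (mul_nonneg hP hQ)
    _ = 17 / 10 * ((4 : ℝ) ^ (17 + k) / 2 *
        ((V + 3 / 20) ^ 34 * (V ^ 2) ^ k * (116138 / 100000000) ^ 2)) := by ring
    _ ≤ 17 / 10 * ((4 : ℝ) ^ (17 + k) / 2 *
        ((V + 3 / 20) ^ (2 * (17 + k)) * (116138 / 100000000) ^ 2)) := by
        gcongr

private lemma c6_ku1 (V : ℝ) (n : ℕ) :
    pM V ku1 n = V ^ (2 * n + 1) * (1 / (2 * n + 1) - 49 / 100 * V ^ 2 / (2 * n + 3) -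
      939 / 100 * V ^ 4 / (2 * n + 5)) := by
  unfold pM ku1
  have e : (fun v : ℝ => v ^ (2 * n) * (1 - 49 / 100 * v ^ 2 - 939 / 100 * v ^ 4)) =
      fun v => v ^ (2 * n) - 49 / 100 * v ^ (2 * n + 2) - 939 / 100 * v ^ (2 * n + 4) := by
    funext v
    ring
  rw [e, intervalIntegral.integral_sub, intervalIntegral.integral_sub,
    intervalIntegral.integral_const_mul, intervalIntegral.integral_const_mul, integral_pow,
    integral_pow, integral_pow, zero_pow (by omega), zero_pow (by omega), zero_pow (by omega)]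
  · push_cast
    have h5 : (2 * (n : ℝ) + 2 + 1) = 2 * n + 3 := by ring
    have h6 : (2 * (n : ℝ) + 4 + 1) = 2 * n + 5 := by ring
    rw [h5, h6]
    ring
  · exact (Continuous.intervalIntegrable (by fun_prop) _ _)
  · exact (Continuous.intervalIntegrable (by fun_prop) _ _)
  · exact (Continuous.intervalIntegrable (by fun_prop) _ _)
  · exact (Continuous.intervalIntegrable (by fun_prop) _ _)

private lemma c6_ku2 (V : ℝ) (n : ℕ) :
    pM V ku2 n = V ^ (2 * n + 1) * (V ^ 2 / (2 * n + 3) + 706 / 100 * V ^ 4 / (2 * n + 5)) := by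
  unfold pM ku2
  have e : (fun v : ℝ => v ^ (2 * n) * (v ^ 2 + 706 / 100 * v ^ 4)) =
      fun v => v ^ (2 * n + 2) + 706 / 100 * v ^ (2 * n + 4) := by
    funext v
    ring
  rw [e, intervalIntegral.integral_add,
    intervalIntegral.integral_const_mul, integral_pow,
    integral_pow, zero_pow (by omega), zero_pow (by omega)]
  · push_cast
    have h5 : (2 * (n : ℝ) + 2 + 1) = 2 * n + 3 := by ring
    have h6 : (2 * (n : ℝ) + 4 + 1) = 2 * n + 5 := by ring
    rw [h5, h6]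
    ring
  · exact (Continuous.intervalIntegrable (by fun_prop) _ _)
  · exact (Continuous.intervalIntegrable (by fun_prop) _ _)

private lemma c6_pos (n : ℕ) : 0 ≤ pM (1 / 2 + 1 / 1000000000) ku1 n ∧
    3 / 20 * pM (1 / 2 + 1 / 1000000000) ku1 n ≤ pM (1 / 2 + 1 / 1000000000) ku2 n := by
  rw [c6_ku1, c6_ku2]
  set V : ℝ := 1 / 2 + 1 / 1000000000 with hV
  have hVp : (0 : ℝ) < V ^ (2 * n + 1) := by rw [hV]; positivity
  have hn : (0 : ℝ) ≤ n := Nat.cast_nonneg n
  have h1 : (0 : ℝ) < 2 * n + 1 := by positivity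
  have h3 : (0 : ℝ) < 2 * n + 3 := by positivity
  have h5 : (0 : ℝ) < 2 * n + 5 := by positivity
  set x : ℝ := 1 / (2 * n + 1) with hx
  have hx0 : 0 < x := by rw [hx]; positivity
  have y1 : 1 / (2 * (n : ℝ) + 3) ≤ x := by
    rw [hx]
    exact one_div_le_one_div_of_le h1 (by linarith)
  have z1 : 1 / (2 * (n : ℝ) + 5) ≤ x := by
    rw [hx]
    exact one_div_le_one_div_of_le h1 (by linarith)
  have y2 : x / 3 ≤ 1 / (2 * (n : ℝ) + 3) := by
    rw [hx, div_div]
    exact one_div_le_one_div_of_le h3 (by linarith)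
  have z2 : x / 5 ≤ 1 / (2 * (n : ℝ) + 5) := by
    rw [hx, div_div]
    exact one_div_le_one_div_of_le h5 (by linarith)
  set y : ℝ := 1 / (2 * (n : ℝ) + 3) with hy
  set z : ℝ := 1 / (2 * (n : ℝ) + 5) with hz
  have e1 : 49 / 100 * V ^ 2 / (2 * (n : ℝ) + 3) = 49 / 100 * V ^ 2 * y := by rw [hy]; ring
  have e2 : 939 / 100 * V ^ 4 / (2 * (n : ℝ) + 5) = 939 / 100 * V ^ 4 * z := by rw [hz]; ring
  have e3 : V ^ 2 / (2 * (n : ℝ) + 3) = V ^ 2 * y := by rw [hy]; ring
  have e4 : 706 / 100 * V ^ 4 / (2 * (n : ℝ) + 5) = 706 / 100 * V ^ 4 * z := by rw [hz]; ring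
  rw [e1, e2, e3, e4]
  have v2a : V ^ 2 ≤ 2500001 / 10000000 := by rw [hV]; norm_num
  have v2b : 1 / 4 ≤ V ^ 2 := by rw [hV]; norm_num
  have v4a : V ^ 4 ≤ 625001 / 10000000 := by rw [hV]; norm_num
  have v4b : 1 / 16 ≤ V ^ 4 := by rw [hV]; norm_num
  have hy0 : 0 ≤ y := by linarith
  have hz0 : 0 ≤ z := by linarith
  have p1 : V ^ 2 * y ≤ 2500001 / 10000000 * x :=
    mul_le_mul v2a y1 hy0 (by norm_num)
  have p2 : V ^ 4 * z ≤ 625001 / 10000000 * x :=
    mul_le_mul v4a z1 hz0 (by norm_num)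
  have p3 : 1 / 4 * (x / 3) ≤ V ^ 2 * y :=
    mul_le_mul v2b y2 (by positivity) (by positivity)
  have p4 : 1 / 16 * (x / 5) ≤ V ^ 4 * z :=
    mul_le_mul v4b z2 (by positivity) (by positivity)
  constructor
  · apply mul_nonneg hVp.le
    nlinarith
  · have e5 : 3 / 20 * (V ^ (2 * n + 1) * (x - 49 / 100 * V ^ 2 * y - 939 / 100 * V ^ 4 * z)) =
        V ^ (2 * n + 1) * (3 / 20 * (x - 49 / 100 * V ^ 2 * y - 939 / 100 * V ^ 4 * z)) := by ring
    rw [e5]
    apply mul_le_mul_of_nonneg_left _ hVp.le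
    nlinarith

private lemma c6_quad {p q r s : ℝ} (hp : 0 ≤ p) (hq : 0 ≤ q) (hr : 3 / 20 * p ≤ r)
    (hs : 3 / 20 * q ≤ s) :
    0 ≤ 323849 / 100000 * (p * q) - 512829 / 100000 * (p * s + r * q) +
      3744464 / 100000 * (r * s) := by
  obtain ⟨e, rfl, he⟩ : ∃ e, r = 3 / 20 * p + e ∧ 0 ≤ e := ⟨r - 3 / 20 * p, by ring, by linarith⟩
  obtain ⟨f, rfl, hf⟩ : ∃ f, s = 3 / 20 * q + f ∧ 0 ≤ f := ⟨s - 3 / 20 * q, by ring, by linarith⟩
  have h1 := mul_nonneg hp hq
  have h2 := mul_nonneg hp hf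
  have h3 := mul_nonneg he hq
  have h4 := mul_nonneg he hf
  nlinarith

private lemma c6_sum (n : ℕ) : 0 ≤ ∑ i ∈ range (n + 1), ((2 * n).choose (2 * i) : ℝ) *
        (323849 / 100000 * (pM (1 / 2 + 1 / 1000000000) ku1 i *
            pM (1 / 2 + 1 / 1000000000) ku1 (n - i)) -
          2 * (512829 / 100000) * (pM (1 / 2 + 1 / 1000000000) ku1 i *
            pM (1 / 2 + 1 / 1000000000) ku2 (n - i)) +
          3744464 / 100000 * (pM (1 / 2 + 1 / 1000000000) ku2 i *
            pM (1 / 2 + 1 / 1000000000) ku2 (n - i))) := by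
  have hpos := c6_pos
  generalize pM (1 / 2 + 1 / 1000000000) ku1 = b at *
  generalize pM (1 / 2 + 1 / 1000000000) ku2 = c at *
  have hrefl : ∑ i ∈ range (n + 1), ((2 * n).choose (2 * i) : ℝ) * (b i * c (n - i)) =
      ∑ i ∈ range (n + 1), ((2 * n).choose (2 * i) : ℝ) * (c i * b (n - i)) := by
    rw [← Finset.sum_range_reflect]
    refine Finset.sum_congr rfl fun i hi => ?_
    have hi' : i ≤ n := by have := mem_range.1 hi; omega
    have e1 : n + 1 - 1 - i = n - i := by omega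
    have e2 : n - (n - i) = i := by omega
    have e3 : (2 * n).choose (2 * (n - i)) = (2 * n).choose (2 * i) := by
      rw [← Nat.choose_symm (show 2 * i ≤ 2 * n by omega)]
      congr 1
      omega
    rw [e1, e2, e3]
    ring
  have e : ∑ i ∈ range (n + 1), ((2 * n).choose (2 * i) : ℝ) *
        (323849 / 100000 * (b i * b (n - i)) - 2 * (512829 / 100000) * (b i * c (n - i)) +
          3744464 / 100000 * (c i * c (n - i))) =
      ∑ i ∈ range (n + 1), ((2 * n).choose (2 * i) : ℝ) *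
        (323849 / 100000 * (b i * b (n - i)) - 512829 / 100000 * (b i * c (n - i) +
          c i * b (n - i)) + 3744464 / 100000 * (c i * c (n - i))) := by
    have e1 : ∑ i ∈ range (n + 1), ((2 * n).choose (2 * i) : ℝ) *
        (323849 / 100000 * (b i * b (n - i)) - 2 * (512829 / 100000) * (b i * c (n - i)) +
          3744464 / 100000 * (c i * c (n - i))) =
        ∑ i ∈ range (n + 1), ((2 * n).choose (2 * i) : ℝ) *
        (323849 / 100000 * (b i * b (n - i)) - 512829 / 100000 * (b i * c (n - i) +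
          c i * b (n - i)) + 3744464 / 100000 * (c i * c (n - i))) -
        512829 / 100000 * (∑ i ∈ range (n + 1), ((2 * n).choose (2 * i) : ℝ) * (b i * c (n - i)) -
          ∑ i ∈ range (n + 1), ((2 * n).choose (2 * i) : ℝ) * (c i * b (n - i))) := by
      rw [← Finset.sum_sub_distrib, Finset.mul_sum, ← Finset.sum_sub_distrib]
      refine Finset.sum_congr rfl fun i _ => ?_
      ring
    rw [e1, hrefl, sub_self, mul_zero, sub_zero]
  rw [e]
  refine Finset.sum_nonneg fun i _ => mul_nonneg (Nat.cast_nonneg _) ?_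
  exact c6_quad (hpos i).1 (hpos (n - i)).1 (hpos i).2 (hpos (n - i)).2

theorem s_C6 (h3 : S_C3) : S_C6 := by
  intro n hn
  have hne : n ≠ 0 := by omega
  rw [if_neg hne, add_zero]
  refine le_trans ?_ (c6_large h3 n hn)
  refine mul_le_mul_of_nonneg_left ?_ (by norm_num)
  have h1 := c6_sum n
  linarith

end Pool.Agent.MP0016c7.PC
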