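import Mathlib
import Pool.Agent.Lib.MP_0016c7_nt.PC.C.CStm

set_option autoImplicit false

/-!
[PC C7] closed forms for the energy.
-/

open Finset MeasureTheory Filter Topology
open scoped Real

namespace Pool.Agent.MP0016c7.PC

open Pool.Agent.MP0016c7.Rz

private lemma c7_poly (V c0 c2 c4 c6 : ℝ) :
    ∫ v in (0 : ℝ)..V, (c0 + c2 * v ^ 2 + c4 * v ^ 4 + c6 * v ^ 6) =
      c0 * V + c2 * V ^ 3 / 3 + c4 * V ^ 5 / 5 + c6 * V ^ 7 / 7 := by
  rw [intervalIntegral.integral_add, intervalIntegral.integral_add, intervalIntegral.integral_add,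
    intervalIntegral.integral_const_mul, intervalIntegral.integral_const_mul,
    intervalIntegral.integral_const_mul, integral_pow, integral_pow, integral_pow,
    intervalIntegral.integral_const, smul_eq_mul]
  · push_cast
    ring
  · simp
  · exact (Continuous.intervalIntegrable (by fun_prop) _ _)
  · exact (Continuous.intervalIntegrable (by fun_prop) _ _)
  · exact (Continuous.intervalIntegrable (by fun_prop) _ _)
  · exact (Continuous.intervalIntegrable (by fun_prop) _ _)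
  · exact (Continuous.intervalIntegrable (by fun_prop) _ _)

private lemma c7_poly2 (a b c1 c2 c4 c6 c8 c10 : ℝ) :
    ∫ v in a..b, (c1 * v ^ 1 + c2 * v ^ 2 + c4 * v ^ 4 + c6 * v ^ 6 + c8 * v ^ 8 + c10 * v ^ 10) =
      (c1 * b ^ 2 / 2 + c2 * b ^ 3 / 3 + c4 * b ^ 5 / 5 + c6 * b ^ 7 / 7 + c8 * b ^ 9 / 9 +
        c10 * b ^ 11 / 11) -
      (c1 * a ^ 2 / 2 + c2 * a ^ 3 / 3 + c4 * a ^ 5 / 5 + c6 * a ^ 7 / 7 + c8 * a ^ 9 / 9 +
        c10 * a ^ 11 / 11) := by
  rw [intervalIntegral.integral_add, intervalIntegral.integral_add, intervalIntegral.integral_add,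
    intervalIntegral.integral_add, intervalIntegral.integral_add,
    intervalIntegral.integral_const_mul, intervalIntegral.integral_const_mul,
    intervalIntegral.integral_const_mul, intervalIntegral.integral_const_mul,
    intervalIntegral.integral_const_mul, intervalIntegral.integral_const_mul,
    integral_pow, integral_pow, integral_pow, integral_pow, integral_pow, integral_pow]
  · push_cast
    ring
  all_goals exact (Continuous.intervalIntegrable (by fun_prop) _ _)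

private lemma c7_u1 (u : ℝ) : ∫ v in (0 : ℝ)..u, ku1 v =
    u - 49 / 300 * u ^ 3 - 939 / 500 * u ^ 5 := by
  have e : ku1 = fun v : ℝ => 1 + (-49 / 100) * v ^ 2 + (-939 / 100) * v ^ 4 + 0 * v ^ 6 := by
    funext v
    unfold ku1
    ring
  rw [e, c7_poly]
  ring

private lemma c7_u2 (u : ℝ) : ∫ v in (0 : ℝ)..u, ku2 v = u ^ 3 / 3 + 706 / 500 * u ^ 5 := by
  have e : ku2 = fun v : ℝ => 0 + 1 * v ^ 2 + (706 / 100) * v ^ 4 + 0 * v ^ 6 := by
    funext v
    unfold ku2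
    ring
  rw [e, c7_poly]
  ring

private lemma c7_w (u : ℝ) : ∫ v in (0 : ℝ)..u, kw v = 17 / 10 * u := by
  unfold kw
  rw [intervalIntegral.integral_const, smul_eq_mul]
  ring

private lemma c7_Kq (a b : ℝ) : ∫ u in a..b, Kq kw ku1 ku2 (787 / 10) 1332 u = kI b - kI a := by
  have e : (Kq kw ku1 ku2 (787 / 10) 1332) = fun u : ℝ => (17 / 10) * u ^ 1 +
      (787 / 10) * u ^ 2 + (787 / 10 * (2 * (-49 / 100) / 3)) * u ^ 4 +
      (787 / 10 * ((-49 / 100) ^ 2 / 9 + 2 * (-939 / 100) / 5) + 1332 / 9) * u ^ 6 +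
      (787 / 10 * (2 * (-49 / 100) * (-939 / 100) / 15) + 1332 * (2 * (706 / 100) / 15)) * u ^ 8 +
      (787 / 10 * ((-939 / 100) ^ 2 / 25) + 1332 * ((706 / 100) ^ 2 / 25)) * u ^ 10 := by
    funext u
    unfold Kq
    rw [c7_u1, c7_u2, c7_w]
    ring
  rw [e, c7_poly2]
  unfold kI
  ring

private lemma c7_part1 (ωa ωb e₁ e₂ : ℝ) : Kint (Kq kw ku1 ku2 (787 / 10) 1332) ωa ωb e₁ e₂ =
    ωb * kI e₁ + ωa * (kI e₂ - kI e₁) + (kI (1 / 2) - kI e₂) := by
  unfold Kint
  rw [c7_Kq, c7_Kq, c7_Kq]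
  have h0 : (kI (0 : ℝ)) = 0 := by
    unfold kI
    norm_num
  rw [h0, sub_zero]

private lemma c7_part2 (V a b : ℝ) : qP kw ku1 ku2 (787 / 10) 1332 V (fun v => a - b * v ^ 2) =
    17 / 10 * (a ^ 2 * V - 2 * a * b * V ^ 3 / 3 + b ^ 2 * V ^ 5 / 5) +
    787 / 10 * (a * V - (b + 49 / 100 * a) * V ^ 3 / 3 + (49 / 100 * b - 939 / 100 * a) * V ^ 5 / 5 +
      939 / 100 * b * V ^ 7 / 7) ^ 2 +
    1332 * (a * V ^ 3 / 3 + (706 / 100 * a - b) * V ^ 5 / 5 - 706 / 100 * b * V ^ 7 / 7) ^ 2 := by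
  unfold qP
  have e1 : ∫ v in (0 : ℝ)..V, kw v * (a - b * v ^ 2) ^ 2 =
      17 / 10 * (a ^ 2 * V - 2 * a * b * V ^ 3 / 3 + b ^ 2 * V ^ 5 / 5) := by
    have e : (fun v : ℝ => kw v * (a - b * v ^ 2) ^ 2) =
        fun v => (17 / 10 * a ^ 2) + (-(17 / 5 * a * b)) * v ^ 2 + (17 / 10 * b ^ 2) * v ^ 4 +
          0 * v ^ 6 := by
      funext v
      unfold kw
      ring
    rw [e, c7_poly]
    ring
  have e2 : ∫ v in (0 : ℝ)..V, ku1 v * (a - b * v ^ 2) =
      a * V - (b + 49 / 100 * a) * V ^ 3 / 3 + (49 / 100 * b - 939 / 100 * a) * V ^ 5 / 5 +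
      939 / 100 * b * V ^ 7 / 7 := by
    have e : (fun v : ℝ => ku1 v * (a - b * v ^ 2)) =
        fun v => a + (-(b + 49 / 100 * a)) * v ^ 2 + (49 / 100 * b - 939 / 100 * a) * v ^ 4 +
          (939 / 100 * b) * v ^ 6 := by
      funext v
      unfold ku1
      ring
    rw [e, c7_poly]
    ring
  have e3 : ∫ v in (0 : ℝ)..V, ku2 v * (a - b * v ^ 2) =
      a * V ^ 3 / 3 + (706 / 100 * a - b) * V ^ 5 / 5 - 706 / 100 * b * V ^ 7 / 7 := by
    have e : (fun v : ℝ => ku2 v * (a - b * v ^ 2)) =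
        fun v => 0 + a * v ^ 2 + (706 / 100 * a - b) * v ^ 4 +
          (-(706 / 100 * b)) * v ^ 6 := by
      funext v
      unfold ku2
      ring
    rw [e, c7_poly]
    ring
  rw [e1, e2, e3]

private lemma c7_hid {x : ℝ} (hx : 0 ≤ x) : Hid x 0 = x / 2 + x ^ 2 / 2 := by
  unfold Hid
  split_ifs with h
  · have : x = 0 := le_antisymm h hx
    rw [this]; norm_num
  · rw [max_self]; ring

private lemma c7_part4 : HJ kws kcs 16 0 = 16199920581 / 156250000000 := by
  have h1 : ∀ k : ℕ, HS kws k 0 = (39 / 2500 * ((k : ℝ) + 1)) / 2 +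
      (39 / 2500 * ((k : ℝ) + 1)) ^ 2 / 2 - ((39 / 2500 * (k : ℝ)) / 2 +
      (39 / 2500 * (k : ℝ)) ^ 2 / 2) := by
    intro k
    have hw : wp kws k = 39 / 2500 * (k : ℝ) := by
      unfold wp
      split_ifs with h
      · rw [h]; norm_num
      · obtain ⟨m, rfl⟩ := Nat.exists_eq_succ_of_ne_zero h
        unfold kws
        rw [Nat.succ_sub_one]
        push_cast
        ring
    have p1 : 0 ≤ kws k := by
      unfold kws
      positivity
    have p2 : (0 : ℝ) ≤ 39 / 2500 * (k : ℝ) := by positivity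
    unfold HS
    rw [hw, c7_hid p1, c7_hid p2]
    rfl
  unfold HJ
  simp only [h1, kcs]
  simp only [sum_range_succ, sum_range_zero]
  norm_num

theorem s_C7 : S_C7 := by
  refine ⟨c7_part1, c7_part2, ⟨?_, ?_, c7_w _⟩, c7_part4⟩
  · have hV : (0 : ℝ) ≤ 1 / 2 + 1 / 1000000000 := by norm_num
    have e : ∫ v in (0 : ℝ)..(1 / 2 + 1 / 1000000000), |ku1 v| =
        ∫ v in (0 : ℝ)..(1 / 2 + 1 / 1000000000), ku1 v := by
      refine intervalIntegral.integral_congr fun v hv => ?_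
      rw [Set.uIcc_of_le hV] at hv
      apply abs_of_nonneg
      have h2 : v ^ 2 ≤ 26 / 100 := by nlinarith [hv.1, hv.2]
      have h4 : v ^ 4 ≤ 676 / 10000 := by nlinarith [sq_nonneg v]
      unfold ku1
      linarith
    rw [e, c7_u1]
    norm_num
  · have hV : (0 : ℝ) ≤ 1 / 2 + 1 / 1000000000 := by norm_num
    have e : ∫ v in (0 : ℝ)..(1 / 2 + 1 / 1000000000), |ku2 v| =
        ∫ v in (0 : ℝ)..(1 / 2 + 1 / 1000000000), ku2 v := by
      refine intervalIntegral.integral_congr fun v _ => ?_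
      apply abs_of_nonneg
      unfold ku2
      positivity
    rw [e, c7_u2]
    norm_num

end Pool.Agent.MP0016c7.PC
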