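import Mathlib
import Pool.Agent.Lib.MP_0016c7_nt.PC.C.CStm

set_option autoImplicit false

/-!
Project PrimeConductors, block [C]: C8, the energy is at most `448 / 1000`.
-/

open Finset MeasureTheory Filter Topology
open scoped Real

namespace Pool.Agent.MP0016c7.PC

open Pool.Agent.MP0016c7.Rz

private def c8e1 (k : ℕ) : ℚ := 39 / 2500 * ((k : ℚ) + 1) + 6 * (1 / 1000000000)

private def c8e2 (k : ℕ) : ℚ :=
  39 / 2500 * ((k : ℚ) + 1) + 39 / 2500 * 16 + 12 * (1 / 1000000000)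

private def c8oa : ℚ := 1 - 1657 / 750 * (93 / 1000) ^ 2 + (1657 / 750 - 1) * (657 / 1000) ^ 2 +
  1657 / 750 * (7988 / 1000) * (93 / 1000) ^ 2

private def c8ob : ℚ := 1657 / 750 * (7988 / 1000)

private def c8T (k : ℕ) : ℚ :=
  qsk k * (c8ob * kI (c8e1 k) + c8oa * (kI (c8e2 k) - kI (c8e1 k)) +
    (kI (1 / 2 : ℚ) - kI (c8e2 k)))

private def c8Q (V a b : ℚ) : ℚ :=
  17 / 10 * (a ^ 2 * V - 2 * a * b * V ^ 3 / 3 + b ^ 2 * V ^ 5 / 5) +
    787 / 10 * (a * V - (b + 49 / 100 * a) * V ^ 3 / 3 + (49 / 100 * b - 939 / 100 * a) * V ^ 5 / 5 +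
      939 / 100 * b * V ^ 7 / 7) ^ 2 +
    1332 * (a * V ^ 3 / 3 + (706 / 100 * a - b) * V ^ 5 / 5 - 706 / 100 * b * V ^ 7 / 7) ^ 2

private def c8tot : ℚ :=
  (∑ k ∈ range 16, c8T k) +
    (5 + 4 * (1 - 1657 / 750 * (93 / 1000) ^ 2 + (1657 / 750 - 1) * (657 / 1000) ^ 2) +
      4 * (1657 / 750) * (7988 / 1000)) *
      (3 / 2 * (1 / 1000000000) * (∑ k ∈ range 16, qsk k) +
        2 * (1 / 1000000000) * ∑ k ∈ range 15, qc k * qc (k + 1)) *
      (17 / 10 * (1 / 2 + 1 / 1000000000) + 787 / 10 * (34 / 100) + 1332 * (75 / 10000)) +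
    c8Q (1 / 2 + 1 / 1000000000) (2568 / 10000 - 16199920581 / 156250000000) (6789 / 10000)

private theorem c8_check : c8tot ≤ 448 / 1000 := by decide +kernel

private theorem c8_kI (x : ℚ) : ((kI x : ℚ) : ℝ) = kI (x : ℝ) := by
  unfold kI
  push_cast
  rfl

private theorem c8_kcs (k : ℕ) : kcs k = ((qc k : ℚ) : ℝ) := by
  unfold kcs qc
  push_cast
  ring

private theorem c8_wp (k : ℕ) : wp kws k = 39 / 2500 * (k : ℝ) := by
  unfold wp kws
  rcases k with _ | k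
  · simp
  · simp

private theorem c8_s (k : ℕ) : kcs k ^ 2 * sk kws k = ((qsk k : ℚ) : ℝ) := by
  unfold sk qsk qw
  rw [c8_kcs, c8_wp]
  unfold kws
  push_cast
  ring

theorem s_C8 (h7 : S_C7) : S_C8 := by
  obtain ⟨hK, hQ, ⟨-, -, hw⟩, hH⟩ := h7
  unfold S_C8 enJ
  rw [hw, hH]
  have hT : ∀ k ∈ range 16, kcs k ^ 2 * sk kws k * Kint (Kq kw ku1 ku2 (787 / 10) 1332)
      (1 - 1657 / 750 * (93 / 1000) ^ 2 + (1657 / 750 - 1) * (657 / 1000) ^ 2 +
        1657 / 750 * (7988 / 1000) * (93 / 1000) ^ 2) (1657 / 750 * (7988 / 1000))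
      (1 / 2 - (1 / 2 - kws k - 6 * (1 / 1000000000))) (min (1 / 2) (1 / 2 - kss k)) =
      ((c8T k : ℚ) : ℝ) := by
    intro k hk
    have hk16 : (k : ℝ) + 1 ≤ 16 := by
      have : k + 1 ≤ 16 := Finset.mem_range.1 hk
      exact_mod_cast this
    have e1 : (1 : ℝ) / 2 - (1 / 2 - kws k - 6 * (1 / 1000000000)) = ((c8e1 k : ℚ) : ℝ) := by
      unfold c8e1 kws
      push_cast
      ring
    have e2 : (1 : ℝ) / 2 - kss k = ((c8e2 k : ℚ) : ℝ) := by
      unfold c8e2 kss kws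
      push_cast
      ring
    have e3 : min (1 / 2 : ℝ) (1 / 2 - kss k) = ((c8e2 k : ℚ) : ℝ) := by
      rw [min_eq_right, e2]
      unfold kss kws
      push_cast
      linarith
    rw [hK, c8_s, e1, e3, ← c8_kI, ← c8_kI]
    have e4 : kI (1 / 2 : ℝ) = ((kI (1 / 2 : ℚ) : ℚ) : ℝ) := by
      rw [c8_kI]
      norm_num
    rw [e4]
    unfold c8T c8oa c8ob
    push_cast
    ring
  rw [Finset.sum_congr rfl hT]
  have hS : ∑ k ∈ range 16, kcs k ^ 2 * sk kws k = ((∑ k ∈ range 16, qsk k : ℚ) : ℝ) := by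
    rw [Rat.cast_sum]
    exact Finset.sum_congr rfl fun k _ => c8_s k
  have hP : ∑ k ∈ range (16 - 1), kcs k * kcs (k + 1) =
      ((∑ k ∈ range 15, qc k * qc (k + 1) : ℚ) : ℝ) := by
    rw [Rat.cast_sum]
    refine Finset.sum_congr rfl fun k _ => ?_
    rw [c8_kcs, c8_kcs]
    push_cast
    ring
  rw [hS, hP]
  have hq : qP kw ku1 ku2 (787 / 10) 1332 (1 / 2 + 1 / 1000000000)
      (fun v => ky v - 16199920581 / 156250000000) =
      ((c8Q (1 / 2 + 1 / 1000000000) (2568 / 10000 - 16199920581 / 156250000000)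
        (6789 / 10000) : ℚ) : ℝ) := by
    have e : (fun v => ky v - 16199920581 / 156250000000) =
        fun v => (2568 / 10000 - 16199920581 / 156250000000) - 6789 / 10000 * v ^ 2 := by
      funext v
      unfold ky
      ring
    rw [e, hQ]
    unfold c8Q
    push_cast
    ring
  rw [hq, ← Rat.cast_sum]
  have h := c8_check
  have h' : ((c8tot : ℚ) : ℝ) ≤ ((448 / 1000 : ℚ) : ℝ) := by exact_mod_cast h
  refine le_trans (le_of_eq ?_) (h'.trans (le_of_eq (by norm_num)))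
  unfold c8tot
  push_cast
  ring

end Pool.Agent.MP0016c7.PC
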