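import Mathlib
import Pool.Agent.Lib.MP_0016c7_nt.PC.C.CStm
import Pool.Agent.Lib.MP_0016c7_nt.PC.C.C5

set_option autoImplicit false

/-!
Project PrimeConductors, block [C], C9: the main inequality of the certificate.
-/

open Finset MeasureTheory Filter Topology
open scoped Real

namespace Pool.Agent.MP0016c7.PC

open Pool.Agent.MP0016c7.Rz

theorem qV_cast (k : ℕ) : ((qV k : ℚ) : ℝ) = (1 / 2 + 1 / 1000000000) ^ k := by
  unfold qV
  push_cast
  rw [← div_pow]
  congr 1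
  norm_num

private lemma c9_crit (h4 : S_C4) (h6 : S_C6) (n : ℕ) :
    (1 + 1 / 100000) * ((4 : ℝ) ^ n / 2 *
      ((1 / 2 + 1 / 1000000000) ^ (2 * n + 1) / (2 * n + 1)) +
      (if n = 0 then (1 / 2 + 1 / 1000000000) / 2 else 0) -
      ∑ i ∈ range (n + 1), ((2 * n).choose (2 * i) : ℝ) *
        (323849 / 100000 * (pM (1 / 2 + 1 / 1000000000) ku1 i *
            pM (1 / 2 + 1 / 1000000000) ku1 (n - i)) -
          2 * (512829 / 100000) * (pM (1 / 2 + 1 / 1000000000) ku1 i *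
            pM (1 / 2 + 1 / 1000000000) ku2 (n - i)) +
          3744464 / 100000 * (pM (1 / 2 + 1 / 1000000000) ku2 i *
            pM (1 / 2 + 1 / 1000000000) ku2 (n - i)))) ≤
    17 / 10 * ∑ i ∈ range (n + 1), ((2 * n).choose (2 * i) : ℝ) *
      (dMH (HJ kws kcs 16) (kws 15) (1 / 2 + 1 / 1000000000) ky i *
        dMH (HJ kws kcs 16) (kws 15) (1 / 2 + 1 / 1000000000) ky (n - i)) := by
  by_cases hn : n < 17
  · have h := s_C5 n hn
    unfold qChk at h
    have h' : (((1 + 1 / 100000) * ((4 : ℚ) ^ n / 2 * (qV (2 * n + 1) / ((2 * n + 1 : ℕ) : ℚ)) +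
      (if n = 0 then qV 1 / 2 else 0) -
      ∑ i ∈ range (n + 1), (nc3C (2 * n) (2 * i) : ℚ) *
        (323849 / 100000 * (qU1 i * qU1 (n - i)) - 2 * (512829 / 100000) * (qU1 i * qU2 (n - i)) +
          3744464 / 100000 * (qU2 i * qU2 (n - i)))) : ℚ) : ℝ) ≤
      ((17 / 10 * ∑ i ∈ range (n + 1), (nc3C (2 * n) (2 * i) : ℚ) *
        (qD i * qD (n - i)) : ℚ) : ℝ) := Rat.cast_le.2 h
    have hif : (((if n = 0 then qV 1 / 2 else 0 : ℚ)) : ℝ) =
        if n = 0 then ((1 : ℝ) / 2 + 1 / 1000000000) / 2 else 0 := by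
      split_ifs
      · push_cast
        rw [qV_cast, pow_one]
      · simp
    push_cast at h'
    rw [hif, qV_cast] at h'
    have hch : ∀ i : ℕ, ((2 * n).choose (2 * i) : ℝ) = (nc3C (2 * n) (2 * i) : ℝ) := by
      intro i
      rw [Nat.choose_eq_descFactorial_div_factorial]
      rfl
    simp only [(h4 _).1, (h4 _).2.1, (h4 _).2.2, hch]
    exact h'
  · exact h6 n (by omega)

theorem s_C9 (h1 : S_C1) (h2 : S_C2) (h3 : S_C3) (h4 : S_C4) (h6 : S_C6) : S_C9 := by
  intro a f hf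
  set V : ℝ := 1 / 2 + 1 / 1000000000 with hV
  have hws : 0 < kws 15 := h3.2.2.2 15 (by norm_num)
  have hu1 : Continuous ku1 := by unfold ku1; fun_prop
  have hu2 : Continuous ku2 := by unfold ku2; fun_prop
  have hy : Continuous ky := by unfold ky; fun_prop
  have e1 := h1 (kws 15) V (17 / 10) (1 / 100000) (323849 / 100000) (512829 / 100000)
    (3744464 / 100000) (HJ kws kcs 16) ky ku1 ku2 hws (by rw [hV]; norm_num) h3.2.1 hy hu1 hu2
    (c9_crit h4 h6) a
  have e2 := h2 f (fun v => Real.cosh (a * v)) hf (by fun_prop)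
  have hQ0 : 0 ≤ qP kw ku1 ku2 (787 / 10) 1332 V f := by
    have h0 : 0 ≤ ∫ v in (0 : ℝ)..V, kw v * f v ^ 2 :=
      intervalIntegral.integral_nonneg (by rw [hV]; norm_num) fun v _ =>
        mul_nonneg (by unfold kw; norm_num) (sq_nonneg _)
    unfold qP
    positivity
  set Q := qP kw ku1 ku2 (787 / 10) 1332 V f with hQ
  set S := ∫ v in (0 : ℝ)..V, Real.cosh (a * v) * f v with hS
  set P := PPH (HJ kws kcs 16) (kws 15) V ky a with hP
  have h3' := mul_le_mul_of_nonneg_left e2 (by norm_num : (0 : ℝ) ≤ 1 + 1 / 100000)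
  have h4' := mul_le_mul_of_nonneg_left e1 hQ0
  have h5 : (17 / 10 : ℝ) * ((1 + 1 / 100000) * S ^ 2) ≤ 17 / 10 * (Q * P ^ 2) := by
    refine le_trans (le_of_eq ?_) (h3'.trans (le_trans (le_of_eq ?_) (h4'.trans (le_of_eq ?_))))
    · ring
    · ring
    · ring
  exact le_of_mul_le_mul_left h5 (by norm_num)

end Pool.Agent.MP0016c7.PC
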