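import Mathlib
import Pool.Agent.Lib.MP_0016c7_nt.PC.Iface2
import Pool.Agent.Lib.MP_0016c7_nt.PC.C.C9

set_option autoImplicit false

/-!
Project PrimeConductors, block [C]: the certificate from the pieces.
-/

open Finset MeasureTheory Filter Topology
open scoped Real

namespace Pool.Agent.MP0016c7.PC

open Pool.Agent.MP0016c7.Rz

private lemma cert_kcs (k : ℕ) (hk : k < 16) : 0 < kcs k := by
  unfold kcs
  interval_cases k <;> norm_num

theorem certM_k (h9 : S_C9) : CertM 0 (1 / 1000000000) (7988 / 1000) (1 / 100000) 16 kws kcs kw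
    ku1 ku2 ky (787 / 10) 1332 where
  hJ := by norm_num
  hδ := by norm_num
  hδ' := by norm_num
  hμ := by norm_num
  hws₀ := by unfold kws; norm_num
  hws := fun k _ => by
    unfold kws
    push_cast
    linarith
  hcs := fun k hk => (cert_kcs k hk).le
  hcsJ := cert_kcs 15 (by norm_num)
  hκ := by norm_num
  hlen := by
    show kws 15 + 10 * (1 / 1000000000) + 2 / (7988 / 1000) < 1 / 2
    unfold kws
    norm_num
  hw := by unfold kw; fun_prop
  hwp := fun v => by unfold kw; norm_num
  hg₁ := by norm_num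
  hg₂ := by norm_num
  hu₁ := by unfold ku1; fun_prop
  hu₂ := by unfold ku2; fun_prop
  hy := by unfold ky; fun_prop
  hyp := fun v hv => by
    unfold ky
    have : v ^ 2 ≤ (1 / 2 + 1 / 1000000000) ^ 2 := pow_le_pow_left₀ hv.1 hv.2 2
    norm_num at this ⊢
    linarith
  hyi := by
    unfold ky
    rw [intervalIntegral.integral_sub, intervalIntegral.integral_const_mul, integral_pow,
      intervalIntegral.integral_const, smul_eq_mul]
    · norm_num
    · simp
    · exact (Continuous.intervalIntegrable (by fun_prop) _ _)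
  main := fun a _ f hf => h9 a f hf

theorem certE_k (h7 : S_C7) (h8 : S_C8) : CertE (1 / 1000000000) (7988 / 1000) (448 / 1000) 16
    kws kcs kss kw ku1 ku2 ky (787 / 10) 1332 (34 / 100) (75 / 10000) (1657 / 750) (93 / 1000)
    (657 / 1000) where
  hσ₀ := fun k hk => by
    have hk' : (k : ℝ) ≤ 15 := by exact_mod_cast (by omega : k ≤ 15)
    unfold kss kws
    push_cast
    constructor <;> linarith
  hσ := fun k hk => by
    right
    show kss k + kws k + kws 15 + 12 * (1 / 1000000000) ≤ 1 / 2
    unfold kss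
    linarith
  hτ := by
    show kws 15 + 6 * (1 / 1000000000) ≤ 1 / 2
    unfold kws
    norm_num
  ht := by norm_num
  hlam := by norm_num
  hν := by norm_num
  htl := by norm_num
  hρ := by norm_num
  hB₁ := h7.2.2.1.1
  hB₂ := h7.2.2.1.2.1
  en := h8

theorem cert_of (h7 : S_C7) (h8 : S_C8) (h9 : S_C9) : JF_cert :=
  ⟨1 / 1000000000, 7988 / 1000, 1 / 100000, 448 / 1000, 16, kws, kcs, kss, kw, ku1, ku2, ky,
    787 / 10, 1332, 34 / 100, 75 / 10000, 1657 / 750, 93 / 1000, 657 / 1000, by norm_num,
    certM_k h9, certE_k h7 h8⟩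

end Pool.Agent.MP0016c7.PC
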