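import Mathlib
import Pool.Agent.Lib.MP_0016c7_nt.PC.C.Cert
import Pool.Agent.Lib.MP_0016c7_nt.PC.C.C1
import Pool.Agent.Lib.MP_0016c7_nt.PC.C.C2
import Pool.Agent.Lib.MP_0016c7_nt.PC.C.C3
import Pool.Agent.Lib.MP_0016c7_nt.PC.C.C4
import Pool.Agent.Lib.MP_0016c7_nt.PC.C.C6
import Pool.Agent.Lib.MP_0016c7_nt.PC.C.C7
import Pool.Agent.Lib.MP_0016c7_nt.PC.C.C8

set_option autoImplicit false

/-!
Project PrimeConductors, block [C]: the certificate with `E = 448 / 1000`.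
-/

namespace Pool.Agent.MP0016c7.PC

theorem s_C9_fin : S_C9 := s_C9 s_C1 s_C2 s_C3 (s_C4 s_C3) (s_C6 s_C3)

/-- The certificate, part 1. -/
theorem certM_fin : CertM 0 (1 / 1000000000) (7988 / 1000) (1 / 100000) 16 kws kcs kw
    ku1 ku2 ky (787 / 10) 1332 :=
  certM_k s_C9_fin

/-- The certificate, part 2: the energy is at most `448 / 1000`. -/
theorem certE_fin : CertE (1 / 1000000000) (7988 / 1000) (448 / 1000) 16
    kws kcs kss kw ku1 ku2 ky (787 / 10) 1332 (34 / 100) (75 / 10000) (1657 / 750) (93 / 1000)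
    (657 / 1000) :=
  certE_k s_C7 (s_C8 s_C7)

theorem jf_cert : JF_cert := cert_of s_C7 (s_C8 s_C7) s_C9_fin

end Pool.Agent.MP0016c7.PC
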